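import Pool.Agent.D0H99.RM.Cr
import Pool.Agent.D0H99.RM.Stm2

/-!
Explicit 2-descent for `d y² = (x - g) (x - a) (x - b)` over `k(t)`: the algebra.
-/

set_option autoImplicit false
set_option linter.all false

open Polynomial IsDedekindDomain

namespace Pool.Agent.D0H99.DE

open Finset
open Pool.Agent.Y164.SZ
open Pool.Agent.Y713.SE (hp Pw)
open Pool.Agent.Y164.PS (Fam el)
open Pool.Agent.D0H99.FT (br nu cs)
open Pool.Agent.D0H99.RM (Dtb V Sol)

/-- the exponents of the torsion points at the twist places -/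
def tx (i j : Fin 3) : ZMod 2 := if j = i then 0 else 1

/-- the exponents of the torsion points at the nodes -/
def tp (i j : Fin 3) (s : Fin 2) : ZMod 2 :=
  if j = i then ∑ l ∈ univ.erase i, mu 2 (fun _ => 0) Fin.succ i l s
  else mu 2 (fun _ => 0) Fin.succ i j s

/-- the third root -/
def th (s : Fin 2) : Fin 3 := if s = 0 then 2 else 1

theorem t1 : ∀ (i : Fin 3) (s : Fin 2), tp i 0 s = tx i 0 + tx i s.succ := by decide

theorem t2 : ∀ (i : Fin 3) (b s : Fin 2), tp i b.succ s =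
    if s = b then tx i 0 + tx i b.succ else 0 := by decide

theorem t4 : ∀ n : Fin 2 → ZMod 2, (n = fun _ => 0) ∨
    ∃ i : Fin 3, n = fun s => tx i 0 + tx i s.succ := by decide

theorem t5 : ∀ i : Fin 3, tx i 0 = tx i 1 + tx i 2 := by decide

theorem th_ne : ∀ s : Fin 2, th s ≠ 0 ∧ th s ≠ s.succ := by decide

theorem th_mu : ∀ s : Fin 2, mu 2 (fun _ => (0 : Fin 3)) Fin.succ 0 (th s) s = 0 := by decide

theorem succ_cases : ∀ (b s : Fin 2), s ≠ b → b.succ = th s := by decide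

section
variable {k : Type} [Field k] [Fintype k] [DecidableEq k]
variable (K : Type) [Field K] [Algebra k[X] K] [IsFractionRing k[X] K]
variable (c : Fin 2 → k) (g : k[X]) {r : ℕ} (T : Fin r → k[X])

/-- the roots -/
noncomputable def rt (i : Fin 3) : K := algebraMap k[X] K (br g c i * ∏ x, T x)

/-- the classes of the torsion points -/
noncomputable def tors (i j : Fin 3) : K :=
  if j = i then ∏ l ∈ univ.erase i, (rt K c g T i - rt K c g T l) else
    rt K c g T i - rt K c g T j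

end

/-- `z` is locally a square -/
def LSq {k : Type} [Field k] {K : Type} [Field K] [Algebra k[X] K] [IsFractionRing k[X] K]
    (v : HeightOneSpectrum k[X]) (z : K) : Prop :=
  ∃ w : K, w ≠ 0 ∧ v.valuation K (z - w ^ 2) < v.valuation K (w ^ 2)

theorem LSq.val {k : Type} [Field k] {K : Type} [Field K] [Algebra k[X] K] [IsFractionRing k[X] K]
    {v : HeightOneSpectrum k[X]} {z w : K}
    (h : v.valuation K (z - w ^ 2) < v.valuation K (w ^ 2)) :
    v.valuation K z = v.valuation K (w ^ 2) := by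
  have e : z = w ^ 2 + (z - w ^ 2) := by ring
  rw [e]
  exact Valuation.map_add_eq_of_lt_left _ h

section
variable {k : Type} [Field k] [Fintype k] [DecidableEq k]
variable {K : Type} [Field K] [Algebra k[X] K] [IsFractionRing k[X] K]
variable {c : Fin 2 → k} {g : k[X]} {P : Fin 2 → k[X]} {r : ℕ} {T : Fin r → k[X]}

theorem LSq.mul {v : HeightOneSpectrum k[X]} {z w : K} (hz : LSq v z) (hw : LSq v w) :
    LSq v (z * w) := by
  obtain ⟨x, hx0, hx⟩ := hz
  obtain ⟨y, hy0, hy⟩ := hw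
  refine ⟨x * y, mul_ne_zero hx0 hy0, ?_⟩
  have e : z * w - (x * y) ^ 2 = (z - x ^ 2) * w + x ^ 2 * (w - y ^ 2) := by ring
  have hx2 : v.valuation K (x ^ 2) ≠ 0 := (Valuation.ne_zero_iff _).2 (pow_ne_zero _ hx0)
  have hy2 : v.valuation K (y ^ 2) ≠ 0 := (Valuation.ne_zero_iff _).2 (pow_ne_zero _ hy0)
  rw [e, mul_pow, map_mul (v.valuation K) (x ^ 2) (y ^ 2)]
  refine lt_of_le_of_lt (Valuation.map_add _ _ _) (max_lt ?_ ?_)
  · rw [map_mul, LSq.val hy]
    exact mul_lt_mul_of_pos_right hx (zero_lt_iff.2 hy2)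
  · rw [map_mul]
    exact mul_lt_mul_of_pos_left hy (zero_lt_iff.2 hx2)

theorem locB {κ : Type} [Fintype κ] (S : SYM0 2 k) {R : κ → k[X]} (hR : Fam R) (d : K)
    (cc : ZMod 2) (u : κ → ZMod 2) (h : IsRep 2 R d cc u) (x : κ)
    (hz : LSq (hp (R x) (hR.irr x)) d) :
    u x = 0 ∧ ∑ y, u y * L 2 (R y) (R x) + ((R x).natDegree : ZMod 2) * cc = 0 := by
  obtain ⟨r, n, y, hr, hy, hc, hn, hd⟩ := h
  set v := hp (R x) (hR.irr x) with hvdef
  obtain ⟨w1, hw10, hw1⟩ := hz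
  have hvd := LSq.val hw1
  have hpw : Pw 2 (v.valuation K d) := ⟨v.valuation K w1, by rw [hvd, map_pow]⟩
  have he := Pool.Agent.Y547.SZ.Rep.even_val hR hr hy hd x hpw
  have hux : u x = 0 := by
    rw [← hn x, ZMod.natCast_eq_zero_iff]
    exact he
  refine ⟨hux, ?_⟩
  obtain ⟨b, hb⟩ := he
  have hRK : algebraMap k[X] K (R x) ≠ 0 := by simpa using (hR.mon x).ne_zero
  obtain ⟨w, hw⟩ : ∃ w : K, w = (algebraMap k[X] K (R x)) ^ b * y := ⟨_, rfl⟩
  have hw0 : w ≠ 0 := by rw [hw]; exact mul_ne_zero (pow_ne_zero _ hRK) hy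
  obtain ⟨e, hedef⟩ : ∃ e, e = Pool.Agent.Y164.PS.el' R x r n := ⟨_, rfl⟩
  have e2 : d = algebraMap k[X] K e * w ^ 2 := by
    rw [hd, Pool.Agent.Y164.PS.el_eq x, map_mul, map_pow, hb, hw, mul_pow, ← pow_mul,
      mul_comm b 2, hedef]
    ring
  have hnd : ¬ R x ∣ e := by rw [hedef]; exact Pool.Agent.Y164.PS.el'_not_dvd hR x hr n
  have hev : v.valuation K (algebraMap k[X] K e) = 1 := by
    rw [Pool.Agent.Y713.SE.val_eq_one_iff]
    exact fun hm => hnd ((Pool.Agent.Y713.SE.mem_hp _ _).1 hm)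
  obtain ⟨q, hq⟩ : ∃ q : K, q = w1 / w := ⟨_, rfl⟩
  have hvw : v.valuation K (w ^ 2) ≠ 0 := (Valuation.ne_zero_iff _).2 (pow_ne_zero _ hw0)
  have hq2 : v.valuation K (q ^ 2) = 1 := by
    have h1 : q ^ 2 * w ^ 2 = w1 ^ 2 := by rw [hq, div_pow]; field_simp
    have h2 : v.valuation K (q ^ 2) * v.valuation K (w ^ 2) = v.valuation K (w ^ 2) := by
      rw [← map_mul, h1, ← hvd, e2, map_mul, hev, one_mul]
    exact mul_right_cancel₀ hvw (h2.trans (one_mul _).symm)
  have hq1 : v.valuation K q ≤ 1 := by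
    rw [map_pow] at hq2
    exact ((pow_le_one_iff two_ne_zero).1 hq2.le)
  have hlt : v.valuation K (algebraMap k[X] K e - q ^ 2) < 1 := by
    have h1 : (algebraMap k[X] K e - q ^ 2) * w ^ 2 = d - w1 ^ 2 := by
      rw [sub_mul, ← e2, hq, div_pow]
      field_simp
    have h2 : v.valuation K (algebraMap k[X] K e - q ^ 2) * v.valuation K (w ^ 2) <
        1 * v.valuation K (w ^ 2) := by
      rw [← map_mul, h1, one_mul]
      refine hw1.trans_eq ?_
      rw [← hvd, e2, map_mul, hev, one_mul]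
    exact lt_of_mul_lt_mul_right h2 zero_le'
  obtain ⟨a, ha⟩ := v.exists_valuation_sub_lt_of_integer hq1 1
  rw [Units.val_one] at ha
  have ha' : e - a ^ 2 ∈ v.asIdeal := by
    rw [← v.valuation_lt_one_iff_mem (K := K)]
    have ha2 : v.valuation K (algebraMap k[X] K a - q) < 1 := by
      first
        | exact ha
        | (rw [← Valuation.map_neg, neg_sub]; exact ha)
    have h3 : algebraMap k[X] K (e - a ^ 2) = (algebraMap k[X] K e - q ^ 2) -
        (algebraMap k[X] K a - q) * (algebraMap k[X] K a + q) := by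
      rw [map_sub, map_pow]
      ring
    change v.valuation K (algebraMap k[X] K (e - a ^ 2)) < 1
    rw [h3]
    refine lt_of_le_of_lt (Valuation.map_sub _ _ _) (max_lt hlt ?_)
    rw [map_mul]
    have h4 : v.valuation K (algebraMap k[X] K a + q) ≤ 1 :=
      (Valuation.map_add _ _ _).trans (max_le (v.valuation_le_one a) hq1)
    exact lt_of_le_of_lt (mul_le_of_le_one_right' h4) ha2
  have hLe : L 2 e (R x) = 0 := by
    rw [S.L_zero_iff _ _ (hR.mon x) (hR.irr x) hnd]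
    refine ⟨a, ?_⟩
    have h5 := (Pool.Agent.Y713.SE.mem_hp _ _).1 ha'
    first
      | exact h5
      | exact (neg_sub e (a ^ 2)) ▸ (dvd_neg (a := R x)).2 h5
  rw [hedef, Pool.Agent.Y547.SZ.Rep.L_el' S hR x hr n] at hLe
  rw [← hLe, hc]
  congr 1
  exact Finset.sum_congr rfl fun y _ => by rw [hn y]

/-- the local conditions -/
structure Sel (H : Dtb 2 c g P T (fun _ => 1)) (D : Fin 3 → K) : Prop where
  ne : ∀ i, D i ≠ 0
  sq : ∃ y, y ≠ 0 ∧ D 0 * D 1 * D 2 = y ^ 2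
  good : ∀ v : HeightOneSpectrum k[X], (∀ x, Sum.elim T P x ∉ v.asIdeal) → ∀ i,
    Pw 2 (v.valuation K (D i))
  node : ∀ s : Fin 2, ∃ ρ : ℕ,
    LSq (hp (Sum.elim T P (Sum.inr s)) (H.fam.irr (Sum.inr s)))
      (D (th s) * (rt K c g T 0 - rt K c g T (th s)) ^ ρ) ∧
    Pw 2 ((hp (Sum.elim T P (Sum.inr s)) (H.fam.irr (Sum.inr s))).valuation K
      (D 0 * (algebraMap k[X] K (P s)) ^ ρ))
  twist : ∀ x : Fin r, ∃ m : Fin 3 → ℕ, ∀ j,
    LSq (hp (Sum.elim T P (Sum.inl x)) (H.fam.irr (Sum.inl x)))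
      (D j * ∏ i, tors K c g T i j ^ m i)

theorem Sel.mul {H : Dtb 2 c g P T (fun _ => 1)} {D D' : Fin 3 → K} (h : Sel H D)
    (h' : Sel H D') : Sel H (fun i => D i * D' i) where
  ne i := mul_ne_zero (h.ne i) (h'.ne i)
  sq := by
    obtain ⟨y, hy, e⟩ := h.sq
    obtain ⟨y', hy', e'⟩ := h'.sq
    exact ⟨y * y', mul_ne_zero hy hy', by rw [mul_pow, ← e, ← e']; ring⟩
  good v hv i := by
    rw [map_mul]
    exact (h.good v hv i).mul (h'.good v hv i)
  node s := by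
    obtain ⟨ρ, h1, h2⟩ := h.node s
    obtain ⟨ρ', h1', h2'⟩ := h'.node s
    refine ⟨ρ + ρ', ?_, ?_⟩
    · have e := h1.mul h1'
      refine cast (congrArg _ ?_) e
      ring
    · have e := h2.mul h2'
      rw [← map_mul] at e
      refine cast (congrArg _ (congrArg _ ?_)) e
      ring
  twist x := by
    obtain ⟨m, h1⟩ := h.twist x
    obtain ⟨m', h1'⟩ := h'.twist x
    refine ⟨m + m', fun j => ?_⟩
    have e := (h1 j).mul (h1' j)
    refine cast (congrArg _ ?_) e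
    simp only [Pi.add_apply, pow_add, prod_mul_distrib]
    ring

/-- the vector of a class -/
def Vec (T : Fin r → k[X]) (P : Fin 2 → k[X]) (D : Fin 3 → K) (a : Fin r → V 2 2) : Prop :=
  ∃ (cc : Fin 3 → ZMod 2) (U : Fin 3 → (Fin r ⊕ Fin 2) → ZMod 2),
    (∀ i, IsRep 2 (Sum.elim T P) (D i) (cc i) (U i)) ∧ cc 0 = cc 1 + cc 2 ∧
    (∀ y, U 0 y = U 1 y + U 2 y) ∧
    ∀ x s, a x s = U s.succ (Sum.inl x) + U 0 (Sum.inl x) + U 0 (Sum.inr s)

theorem exists_vec {H : Dtb 2 c g P T (fun _ => 1)} {D : Fin 3 → K} (h : Sel H D) :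
    ∃ a, Vec T P D a := by
  obtain ⟨rA, rB, rC, rD⟩ :=
    Pool.Agent.Y547.SZ.Rep.t 2 k K (Fin r ⊕ Fin 2) (Sum.elim T P) H.fam H.S
  obtain ⟨c1, U1, h1⟩ := rD (D 1) (h.ne 1) fun v hv => h.good v hv 1
  obtain ⟨c2, U2, h2⟩ := rD (D 2) (h.ne 2) fun v hv => h.good v hv 2
  obtain ⟨y, hy, e⟩ := h.sq
  have h0 : IsRep 2 (Sum.elim T P) (D 0) (c1 + c2) (fun x => U1 x + U2 x) := by
    have h3 := (h1.mul H.S h2).pow_mul' (z := y / (D 1 * D 2))
      (div_ne_zero hy (mul_ne_zero (h.ne 1) (h.ne 2)))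
    have e' : (y / (D 1 * D 2)) ^ 2 * (D 1 * D 2) = D 0 := by
      rw [div_pow, ← e]
      have := h.ne 1
      have := h.ne 2
      field_simp
    rwa [e'] at h3
  refine ⟨_, ![c1 + c2, c1, c2], ![fun x => U1 x + U2 x, U1, U2], ?_, rfl, fun _ => rfl,
    fun _ _ => rfl⟩
  intro i
  fin_cases i
  · exact h0
  · exact h1
  · exact h2

theorem Vec.mul (H : Dtb 2 c g P T (fun _ => 1)) {D D' : Fin 3 → K} {a a' : Fin r → V 2 2}
    (h : Vec T P D a) (h' : Vec T P D' a') : Vec T P (fun i => D i * D' i) (a + a') := by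
  obtain ⟨cc, U, h1, h2, h3, h4⟩ := h
  obtain ⟨cc', U', h1', h2', h3', h4'⟩ := h'
  refine ⟨fun i => cc i + cc' i, fun i x => U i x + U' i x, fun i => (h1 i).mul H.S (h1' i), ?_,
    fun y => ?_, fun x s => ?_⟩
  · simp only [h2, h2']
    ring
  · simp only [h3, h3']
    ring
  · rw [Pi.add_apply, Pi.add_apply, h4, h4']
    ring

end

end Pool.Agent.D0H99.DE
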