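import Pool.Agent.D0H49.RM.Par

/-!
Halving of points of `y² = (x + e₁) (x + e₂) (x + e₃)`; the first lemmas are adapted from the file
`Pool.Agent.H437R2.Man.MWPar` (number fields).
-/

set_option autoImplicit false
set_option linter.all false

open WeierstrassCurve

namespace Pool.Agent.D0H99.DE.Hv

open Pool.Agent.D0H49.RM.Par (crv crv_eqn crv_nonsing numr neg_mk xRep_add Pt)

variable {K : Type} [Field K] [NeZero (2 : K)] [DecidableEq K]

lemma halve_aux {e1 e2 e3 x r1 r2 r3 : K} (h12 : e1 ≠ e2) (h13 : e1 ≠ e3) (h23 : e2 ≠ e3)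
    (hr1 : x + e1 = r1 ^ 2) (hr2 : x + e2 = r2 ^ 2) (hr3 : x + e3 = r3 ^ 2)
    (h : (crv e1 e2 e3).toAffine.Nonsingular x (r1 * r2 * r3)) :
    ∃ Q : Pt e1 e2 e3, Q + Q = Affine.Point.some x (r1 * r2 * r3) h := by
  obtain rfl : e1 = r1 ^ 2 - x := by linear_combination hr1
  obtain rfl : e2 = r2 ^ 2 - x := by linear_combination hr2
  obtain rfl : e3 = r3 ^ 2 - x := by linear_combination hr3
  have d12 : r1 + r2 ≠ 0 := by
    intro hh
    apply h12
    have : r1 = -r2 := by linear_combination hh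
    rw [this]; ring
  have d13 : r1 + r3 ≠ 0 := by
    intro hh
    apply h13
    have : r1 = -r3 := by linear_combination hh
    rw [this]; ring
  have d23 : r2 + r3 ≠ 0 := by
    intro hh
    apply h23
    have : r2 = -r3 := by linear_combination hh
    rw [this]; ring
  set X := x + r1 * r2 + r1 * r3 + r2 * r3 with hX
  set Y := (r1 + r2) * (r1 + r3) * (r2 + r3) with hY
  have hY0 : Y ≠ 0 := by
    rw [hY]; exact mul_ne_zero (mul_ne_zero d12 d13) d23
  have hQ : (crv (r1 ^ 2 - x) (r2 ^ 2 - x) (r3 ^ 2 - x)).toAffine.Nonsingular X Y := by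
    apply crv_nonsing h12 h13 h23
    rw [hX, hY]; ring
  refine ⟨Affine.Point.some X Y hQ, ?_⟩
  have h2Y : (2 : K) * Y ≠ 0 := mul_ne_zero (NeZero.ne 2) hY0
  have hy' : Y ≠ (crv (r1 ^ 2 - x) (r2 ^ 2 - x) (r3 ^ 2 - x)).toAffine.negY X Y := by
    simp only [Affine.negY, crv]
    intro hh
    apply h2Y
    linear_combination hh
  have hslope : (crv (r1 ^ 2 - x) (r2 ^ 2 - x) (r3 ^ 2 - x)).toAffine.slope X X Y Y = r1 + r2 + r3 := by
    rw [Affine.slope_of_Y_ne rfl hy']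
    simp only [Affine.negY, crv]
    have e3' : Y - (-Y - 0 * X - 0) = 2 * Y := by ring
    rw [e3', div_eq_iff h2Y]
    rw [hX, hY]; ring
  rw [Affine.Point.add_self_of_Y_ne hy']
  simp only [Affine.Point.some.injEq]
  rw [hslope]
  constructor
  · simp only [Affine.addX, crv]
    rw [hX]; ring
  · simp only [Affine.addY, Affine.negAddY, Affine.negY, Affine.addX, crv]
    rw [hX, hY]; ring

/-- halving: if all `x + e_i` are squares the point is a double. -/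
lemma halve {e1 e2 e3 x y r1 r2 r3 : K} (h12 : e1 ≠ e2) (h13 : e1 ≠ e3) (h23 : e2 ≠ e3)
    (hr1 : x + e1 = r1 ^ 2) (hr2 : x + e2 = r2 ^ 2) (hr3 : x + e3 = r3 ^ 2)
    (h : (crv e1 e2 e3).toAffine.Nonsingular x y) :
    ∃ Q : Pt e1 e2 e3, Q + Q = Affine.Point.some x y h := by
  have hy := crv_eqn.mp h.1
  have hyy : y ^ 2 = (r1 * r2 * r3) ^ 2 := by rw [hy, hr1, hr2, hr3]; ring
  rcases sq_eq_sq_iff_eq_or_eq_neg.mp hyy with hy1 | hy1
  · subst hy1
    exact halve_aux h12 h13 h23 hr1 hr2 hr3 h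
  · have hy2 : y = (-r1) * r2 * r3 := by rw [hy1]; ring
    subst hy2
    exact halve_aux h12 h13 h23 (by rw [hr1]; ring) hr2 hr3 h

/-- if `(x1+e_i)(x2+e_i)` are nonzero squares, then `P + Q` is a double. -/
lemma add_double {e1 e2 e3 x1 y1 x2 y2 r1 r2 r3 : K} (h12 : e1 ≠ e2) (h13 : e1 ≠ e3) (h23 : e2 ≠ e3)
    (h1 : (crv e1 e2 e3).toAffine.Nonsingular x1 y1) (h2 : (crv e1 e2 e3).toAffine.Nonsingular x2 y2)
    (n1 : r1 ≠ 0) (n2 : r2 ≠ 0) (n3 : r3 ≠ 0)
    (hr1 : (x1 + e1) * (x2 + e1) = r1 ^ 2) (hr2 : (x1 + e2) * (x2 + e2) = r2 ^ 2)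
    (hr3 : (x1 + e3) * (x2 + e3) = r3 ^ 2) :
    ∃ Q : Pt e1 e2 e3, Q + Q = Affine.Point.some x1 y1 h1 + Affine.Point.some x2 y2 h2 := by
  have q1 := crv_eqn.mp h1.1
  have q2 := crv_eqn.mp h2.1
  by_cases hx : x1 = x2
  · subst hx
    have hyy : y1 = y2 ∨ y1 = -y2 := by
      apply sq_eq_sq_iff_eq_or_eq_neg.mp
      rw [q1, q2]
    rcases hyy with hyy | hyy
    · subst hyy
      exact ⟨_, rfl⟩
    · refine ⟨0, ?_⟩
      rw [add_zero]
      symm
      apply Affine.Point.add_of_Y_eq rfl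
      simp only [Affine.negY, crv]
      linear_combination hyy
  · have hx' : x1 - x2 ≠ 0 := sub_ne_zero.mpr hx
    rw [Affine.Point.add_of_X_ne hx]
    have hX : (crv e1 e2 e3).toAffine.addX x1 x2 ((crv e1 e2 e3).toAffine.slope x1 x2 y1 y2)
      = numr e1 e2 e3 x1 x2 (y1 * y2) / (x1 - x2) ^ 2 := by
      have := xRep_add h1 h2 hx
      rw [Affine.Point.add_of_X_ne hx, Affine.Point.xRep_some] at this
      exact congrFun this 0
    have g1 : r1 ^ 2 ≠ 0 := pow_ne_zero _ n1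
    have g2 : r2 ^ 2 ≠ 0 := pow_ne_zero _ n2
    have g3 : r3 ^ 2 ≠ 0 := pow_ne_zero _ n3
    apply halve h12 h13 h23 (r1 := ((y1 * x2 - y2 * x1 + e1 * (y1 - y2) ) / (x1 - x2)) / r1)
      (r2 := ((y1 * x2 - y2 * x1 + e2 * (y1 - y2)) / (x1 - x2)) / r2)
      (r3 := ((y1 * x2 - y2 * x1 + e3 * (y1 - y2)) / (x1 - x2)) / r3)
    · rw [hX, numr, div_pow, eq_div_iff g1, ← hr1]
      field_simp
      linear_combination (-(x2 + e1) ^ 2) * q1 + (-(x1 + e1) ^ 2) * q2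
    · rw [hX, numr, div_pow, eq_div_iff g2, ← hr2]
      field_simp
      linear_combination (-(x2 + e2) ^ 2) * q1 + (-(x1 + e2) ^ 2) * q2
    · rw [hX, numr, div_pow, eq_div_iff g3, ← hr3]
      field_simp
      linear_combination (-(x2 + e3) ^ 2) * q1 + (-(x1 + e3) ^ 2) * q2

/-- addition of a point of order two, abstractly: `w_j ^ 2 = (x3 + e_j) (x1 + e_j) s_j` -/
lemma tor_some {e1 e2 e3 x1 y1 x0 : K} (h1 : (crv e1 e2 e3).toAffine.Nonsingular x1 y1)
    (h0 : (crv e1 e2 e3).toAffine.Nonsingular x0 0) (hx : x1 ≠ x0) :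
    ∃ (x3 y3 : K) (h3 : (crv e1 e2 e3).toAffine.Nonsingular x3 y3),
      Affine.Point.some x1 y1 h1 + Affine.Point.some x0 0 h0 = Affine.Point.some x3 y3 h3 ∧
      x3 = numr e1 e2 e3 x1 x0 0 / (x1 - x0) ^ 2 := by
  have h2 := xRep_add h1 h0 hx
  rw [Affine.Point.add_of_X_ne hx]
  refine ⟨_, _, _, rfl, ?_⟩
  rw [Affine.Point.add_of_X_ne hx, Affine.Point.xRep_some] at h2
  have h3 := congrFun h2 0
  rw [mul_zero] at h3
  exact h3

end Pool.Agent.D0H99.DE.Hv
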