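import Pool.Agent.D0H99.DE.Alg

/-!
Explicit 2-descent: local conditions.
-/

set_option autoImplicit false
set_option linter.all false

open Polynomial IsDedekindDomain

namespace Pool.Agent.D0H99.DE

open Finset
open Pool.Agent.Y164.SZ
open Pool.Agent.Y713.SE (hp Pw not_pw_exp pw_exp_pow)
open Pool.Agent.D0H99.FT (br nu cs)
open Pool.Agent.D0H99.RM (Dtb V Sol)

section
variable {k : Type} [Field k] [Fintype k] [DecidableEq k]
variable {K : Type} [Field K] [Algebra k[X] K] [IsFractionRing k[X] K]

theorem v_pos (v : HeightOneSpectrum k[X]) {a : K} (ha : a ≠ 0) : 0 < v.valuation K a :=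
  zero_lt_iff.2 ((Valuation.ne_zero_iff _).2 ha)

theorem lsq_sq (v : HeightOneSpectrum k[X]) {z : K} (hz : z ≠ 0) : LSq v (z ^ 2) := by
  refine ⟨z, hz, ?_⟩
  rw [sub_self, map_zero]
  exact v_pos v (pow_ne_zero _ hz)

theorem lsq_of (v : HeightOneSpectrum k[X]) {a b : K} (hb : b ≠ 0)
    (h : v.valuation K (a - b) < v.valuation K b) : LSq v (a * b) := by
  refine ⟨b, hb, ?_⟩
  have e : a * b - b ^ 2 = (a - b) * b := by ring
  rw [e, map_mul, pow_two, map_mul]
  exact mul_lt_mul_of_pos_right h (v_pos v hb)

theorem lsq_A (v : HeightOneSpectrum k[X]) {a b d y : K} (ha : a ≠ 0) (hb : b ≠ 0) (hd : d ≠ 0)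
    (h : a * b * d = y ^ 2) (hv : v.valuation K (b - d) < v.valuation K d) : LSq v a := by
  have hy : y ≠ 0 := by
    rintro rfl
    rw [zero_pow two_ne_zero] at h
    exact mul_ne_zero (mul_ne_zero ha hb) hd h
  refine ⟨y / b, div_ne_zero hy hb, ?_⟩
  have e1 : (y / b) ^ 2 = a / b * d := by rw [div_pow, ← h]; field_simp
  have e2 : a - (y / b) ^ 2 = a / b * (b - d) := by rw [e1]; field_simp
  rw [e2, e1, map_mul, map_mul]
  exact mul_lt_mul_of_pos_left hv (v_pos v (div_ne_zero ha hb))

theorem pi_lt : (WithZero.exp (-1 : ℤ) : WithZero (Multiplicative ℤ)) < 1 := by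
  rw [← WithZero.exp_zero, WithZero.exp_lt_exp]
  norm_num

theorem pi_pos : 0 < (WithZero.exp (-1 : ℤ) : WithZero (Multiplicative ℤ)) := zero_lt_iff.2 WithZero.exp_ne_zero

theorem v_add (v : HeightOneSpectrum k[X]) {a b : K} (h : v.valuation K a < v.valuation K b) :
    v.valuation K (a + b) = v.valuation K b := Valuation.map_add_eq_of_lt_right _ h

theorem v_sub_comm (v : HeightOneSpectrum k[X]) (a b : K) :
    v.valuation K (a - b) = v.valuation K (b - a) := Valuation.map_sub_swap _ _ _

/-- good places -/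
theorem good_pt (v : HeightOneSpectrum k[X]) {x y e0 e1 e2 : K} (h01 : v.valuation K (e0 - e1) = 1)
    (h02 : v.valuation K (e0 - e2) = 1)
    (h0 : x - e0 ≠ 0) (hy : (x - e0) * (x - e1) * (x - e2) = y ^ 2) :
    Pw 2 (v.valuation K (x - e0)) := by
  have e1' : x - e1 = (e0 - e1) + (x - e0) := by ring
  have e2' : x - e2 = (e0 - e2) + (x - e0) := by ring
  have hyv := congrArg (v.valuation K) hy
  rw [map_mul, map_mul, map_pow] at hyv
  rcases lt_trichotomy (v.valuation K (x - e0)) 1 with h | h | h
  · have q1 : v.valuation K (x - e1) = 1 := by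
      rw [e1', add_comm, v_add v (by rw [h01]; exact h), h01]
    have q2 : v.valuation K (x - e2) = 1 := by
      rw [e2', add_comm, v_add v (by rw [h02]; exact h), h02]
    rw [q1, q2, mul_one, mul_one] at hyv
    exact ⟨_, hyv⟩
  · exact ⟨1, by rw [h, one_pow]⟩
  · have q1 : v.valuation K (x - e1) = v.valuation K (x - e0) := by
      rw [e1', v_add v (by rw [h01]; exact h)]
    have q2 : v.valuation K (x - e2) = v.valuation K (x - e0) := by
      rw [e2', v_add v (by rw [h02]; exact h)]
    rw [q1, q2] at hyv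
    have hne : v.valuation K (x - e0) ≠ 0 := (v_pos v h0).ne'
    refine ⟨v.valuation K y / v.valuation K (x - e0), ?_⟩
    rw [div_pow, ← hyv]
    field_simp

/-- nodes -/
theorem node_pt (v : HeightOneSpectrum k[X]) {x y e0 e1 e2 p : K} (hp : v.valuation K p = (WithZero.exp (-1 : ℤ) : WithZero (Multiplicative ℤ)))
    (h01 : v.valuation K (e0 - e1) = (WithZero.exp (-1 : ℤ) : WithZero (Multiplicative ℤ))) (h02 : v.valuation K (e0 - e2) = 1)
    (h0 : x - e0 ≠ 0) (h1 : x - e1 ≠ 0) (h2 : x - e2 ≠ 0)
    (hy : (x - e0) * (x - e1) * (x - e2) = y ^ 2) :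
    ∃ ρ : ℕ, LSq v ((x - e2) * (e0 - e2) ^ ρ) ∧ Pw 2 (v.valuation K ((x - e0) * p ^ ρ)) := by
  have hyv := congrArg (v.valuation K) hy
  rw [map_mul, map_mul, map_pow] at hyv
  have e1' : x - e1 = (e0 - e1) + (x - e0) := by ring
  have e1'' : x - e0 = (x - e1) + (-(e0 - e1)) := by ring
  have e2' : x - e2 = (e0 - e2) + (x - e0) := by ring
  have hκ : e0 - e2 ≠ 0 := by
    intro h
    rw [h, map_zero] at h02
    exact zero_ne_one h02
  by_cases h : 1 ≤ v.valuation K (x - e1)
  · refine ⟨0, ?_, ?_⟩
    · rw [pow_zero, mul_one]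
      refine lsq_A v (b := x - e0) (d := x - e1) (y := y) h2 h0 h1 ?_ ?_
      · rw [← hy]; ring
      · have e3 : x - e0 - (x - e1) = - (e0 - e1) := by ring
        rw [e3, Valuation.map_neg, h01]
        exact pi_lt.trans_le h
    · rw [pow_zero, mul_one]
      have q0 : v.valuation K (x - e0) = v.valuation K (x - e1) := by
        have h3 : v.valuation K (-(e0 - e1)) < v.valuation K (x - e1) := by
          rw [Valuation.map_neg, h01]
          exact pi_lt.trans_le h
        rw [e1'', add_comm, v_add v h3]
      rcases h.lt_or_eq with h' | h'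
      · have q2 : v.valuation K (x - e2) = v.valuation K (x - e0) := by
          rw [e2', v_add v (by rw [h02, q0]; exact h')]
        rw [← q0, q2] at hyv
        have hne : v.valuation K (x - e0) ≠ 0 := (v_pos v h0).ne'
        refine ⟨v.valuation K y / v.valuation K (x - e0), ?_⟩
        rw [div_pow, ← hyv]
        field_simp
      · exact ⟨1, by rw [q0, ← h', one_pow]⟩
  · rw [not_le] at h
    have h0' : v.valuation K (x - e0) < 1 := by
      rw [e1'']
      refine lt_of_le_of_lt (Valuation.map_add _ _ _) (max_lt h ?_)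
      rw [Valuation.map_neg, h01]
      exact pi_lt
    have q2 : v.valuation K (x - e2) = 1 := by
      rw [e2', add_comm, v_add v (by rw [h02]; exact h0'), h02]
    refine ⟨1, ?_, ?_⟩
    · rw [pow_one]
      apply lsq_of v hκ
      have e3 : x - e2 - (e0 - e2) = x - e0 := by ring
      rw [e3, h02]
      exact h0'
    · rw [pow_one, map_mul, hp]
      rw [q2, mul_one] at hyv
      rcases lt_trichotomy (v.valuation K (x - e0)) (WithZero.exp (-1 : ℤ) : WithZero (Multiplicative ℤ)) with h3 | h3 | h3
      · have q1 : v.valuation K (x - e1) = (WithZero.exp (-1 : ℤ) : WithZero (Multiplicative ℤ)) := by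
          rw [e1', add_comm, v_add v (by rw [h01]; exact h3), h01]
        rw [q1] at hyv
        exact ⟨_, hyv⟩
      · rw [h3]
        exact ⟨(WithZero.exp (-1 : ℤ) : WithZero (Multiplicative ℤ)), by rw [pow_two]⟩
      · exfalso
        rw [← WithZero.exp_log (v_pos v h0).ne', WithZero.exp_lt_exp] at h3
        rw [← WithZero.exp_log (v_pos v h0).ne', ← WithZero.exp_zero, WithZero.exp_lt_exp] at h0'
        omega

/-- twist places -/
theorem twist_pt (v : HeightOneSpectrum k[X]) {x y : K} {e : Fin 3 → K}
    (hd : ∀ i j, i ≠ j → v.valuation K (e i - e j) = (WithZero.exp (-1 : ℤ) : WithZero (Multiplicative ℤ)))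
    (h0 : ∀ i, x - e i ≠ 0) (hy : (x - e 0) * (x - e 1) * (x - e 2) = y ^ 2) :
    ∃ m : Fin 3 → ℕ, ∀ j, LSq v ((x - e j) *
      ∏ i, (if j = i then ∏ l ∈ univ.erase i, (e i - e l) else e i - e j) ^ m i) := by
  have hyv := congrArg (v.valuation K) hy
  rw [map_mul, map_mul, map_pow] at hyv
  have hne : ∀ i j, i ≠ j → e i - e j ≠ 0 := by
    intro i j hij h
    have := hd i j hij
    rw [h, map_zero] at this
    exact pi_pos.ne this
  by_cases h : ∀ i, (WithZero.exp (-1 : ℤ) : WithZero (Multiplicative ℤ)) < v.valuation K (x - e i)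
  · refine ⟨fun _ => 0, fun j => ?_⟩
    simp only [pow_zero, prod_const_one, mul_one]
    have key : ∀ a b d : Fin 3, b ≠ d → (x - e a) * (x - e b) * (x - e d) = y ^ 2 →
        LSq v (x - e a) := by
      intro a b d hbd hh
      refine lsq_A v (h0 a) (h0 b) (h0 d) hh ?_
      have e3 : x - e b - (x - e d) = e d - e b := by ring
      rw [e3, hd _ _ hbd.symm]
      exact h d
    fin_cases j
    · exact key 0 1 2 (by decide) hy
    · exact key 1 0 2 (by decide) (by rw [← hy]; ring)
    · exact key 2 0 1 (by decide) (by rw [← hy]; ring)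
  · have hle : ∀ i, v.valuation K (x - e i) ≤ (WithZero.exp (-1 : ℤ) : WithZero (Multiplicative ℤ)) := by
      push Not at h
      obtain ⟨i, hi⟩ := h
      intro j
      by_cases hij : i = j
      · rw [← hij]; exact hi
      · have e3 : x - e j = (x - e i) + (e i - e j) := by ring
        rw [e3]
        exact (Valuation.map_add _ _ _).trans (max_le hi (hd i j hij).le)
    have hex : ∃ i, v.valuation K (x - e i) < (WithZero.exp (-1 : ℤ) : WithZero (Multiplicative ℤ)) := by
      by_contra hcon
      push Not at hcon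
      have hall : ∀ i, v.valuation K (x - e i) = (WithZero.exp (-1 : ℤ) : WithZero (Multiplicative ℤ)) := fun i => le_antisymm (hle i) (hcon i)
      rw [hall, hall, hall] at hyv
      have h3 : Pw 2 ((WithZero.exp (-1 : ℤ) : WithZero (Multiplicative ℤ)) ^ 3) := ⟨_, by rw [← hyv, pow_succ, pow_two]⟩
      have := pw_exp_pow Nat.prime_two h3
      omega
    obtain ⟨i, hi⟩ := hex
    refine ⟨Pi.single i 1, fun j => ?_⟩
    have hprod : ∏ i', (if j = i' then ∏ l ∈ univ.erase i', (e i' - e l) else e i' - e j) ^
        (Pi.single i 1 : Fin 3 → ℕ) i' =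
        if j = i then ∏ l ∈ univ.erase i, (e i - e l) else e i - e j := by
      rw [prod_eq_single i]
      · rw [Pi.single_eq_same, pow_one]
      · intro b _ hb
        rw [Pi.single_eq_of_ne hb, pow_zero]
      · intro hh
        exact absurd (mem_univ _) hh
    rw [hprod]
    have key : ∀ l, i ≠ l → LSq v ((x - e l) * (e i - e l)) := by
      intro l hl
      apply lsq_of v (hne i l hl)
      have e3 : x - e l - (e i - e l) = x - e i := by ring
      rw [e3, hd i l hl]
      exact hi
    by_cases hji : j = i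
    · rw [if_pos hji, hji]
      have key2 : ∀ a b d : Fin 3, a ≠ b → a ≠ d → b ≠ d → i = a →
          (x - e a) * (x - e b) * (x - e d) = y ^ 2 →
          LSq v ((x - e a) * ((e a - e b) * (e a - e d))) := by
        intro a b d hab had hbd hia hh
        subst hia
        have k1 := (key b hab).mul (key d had)
        have hyne : y ≠ 0 := by
          rintro rfl
          rw [zero_pow two_ne_zero] at hh
          exact mul_ne_zero (mul_ne_zero (h0 _) (h0 _)) (h0 _) hh
        have k2 := (lsq_sq v (div_ne_zero hyne (mul_ne_zero (h0 b) (h0 d)))).mul k1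
        refine cast (congrArg _ ?_) k2
        rw [div_pow, ← hh]
        have := h0 b
        have := h0 d
        field_simp
      have e0 : univ.erase (0 : Fin 3) = {1, 2} := by decide
      have e1 : univ.erase (1 : Fin 3) = {0, 2} := by decide
      have e2 : univ.erase (2 : Fin 3) = {0, 1} := by decide
      rcases (show i = 0 ∨ i = 1 ∨ i = 2 by fin_cases i <;> simp) with hi' | hi' | hi'
      · rw [hi', e0, prod_pair (by decide)]
        exact key2 0 1 2 (by decide) (by decide) (by decide) hi' hy
      · rw [hi', e1, prod_pair (by decide)]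
        exact key2 1 0 2 (by decide) (by decide) (by decide) hi' (by rw [← hy]; ring)
      · rw [hi', e2, prod_pair (by decide)]
        exact key2 2 0 1 (by decide) (by decide) (by decide) hi' (by rw [← hy]; ring)
    · rw [if_neg hji]
      exact key j (Ne.symm hji)

end

end Pool.Agent.D0H99.DE
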