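import Pool.Agent.D0H99.DE.Hv

/-!
Points of `y² = (x - α₀) (x - α₁) (x - α₂)` modulo doubles; translation by the points of order two.
-/

set_option autoImplicit false
set_option linter.all false

open WeierstrassCurve

namespace Pool.Agent.D0H99.DE.Hv

open Finset
open Pool.Agent.D0H49.RM.Par (crv crv_eqn crv_nonsing numr neg_mk xRep_add Pt)

variable {K : Type} [Field K] [NeZero (2 : K)] [DecidableEq K]

/-- the group of points -/
abbrev Ea (α : Fin 3 → K) : Type := Pt (-α 0) (-α 1) (-α 2)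

/-- the classes of the points of order two -/
def tr (α : Fin 3 → K) (i j : Fin 3) : K :=
  if j = i then ∏ l ∈ univ.erase i, (α i - α l) else α i - α j

theorem eqn {α : Fin 3 → K} {x y : K} : (crv (-α 0) (-α 1) (-α 2)).toAffine.Equation x y ↔
    (x - α 0) * (x - α 1) * (x - α 2) = y ^ 2 := by
  rw [crv_eqn]
  constructor <;> intro h <;> linear_combination -h

theorem ne' {α : Fin 3 → K} (hα : Function.Injective α) : -α 0 ≠ -α 1 ∧ -α 0 ≠ -α 2 ∧
    -α 1 ≠ -α 2 := by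
  refine ⟨fun h => ?_, fun h => ?_, fun h => ?_⟩
  · exact absurd (hα (neg_injective h)) (by decide)
  · exact absurd (hα (neg_injective h)) (by decide)
  · exact absurd (hα (neg_injective h)) (by decide)

theorem f3 {p : Fin 3 → Prop} (h0 : p 0) (h1 : p 1) (h2 : p 2) : ∀ j, p j := by
  intro j
  fin_cases j
  · exact h0
  · exact h1
  · exact h2

theorem ns_tor {α : Fin 3 → K} (hα : Function.Injective α) (i : Fin 3) :
    (crv (-α 0) (-α 1) (-α 2)).toAffine.Nonsingular (α i) 0 := by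
  obtain ⟨h1, h2, h3⟩ := ne' hα
  apply crv_nonsing h1 h2 h3
  revert i
  apply f3 <;> ring

/-- the points of order two -/
noncomputable def tp2 {α : Fin 3 → K} (hα : Function.Injective α) (i : Fin 3) : Ea α :=
  Affine.Point.some (α i) 0 (ns_tor hα i)

theorem sub_ne {α : Fin 3 → K} {x y : K} (hy : y ≠ 0)
    (h : (x - α 0) * (x - α 1) * (x - α 2) = y ^ 2) : ∀ i, x - α i ≠ 0 := by
  apply f3
  · intro h0
    rw [h0, zero_mul, zero_mul] at h
    exact pow_ne_zero 2 hy h.symm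
  · intro h0
    rw [h0, mul_zero, zero_mul] at h
    exact pow_ne_zero 2 hy h.symm
  · intro h0
    rw [h0, mul_zero] at h
    exact pow_ne_zero 2 hy h.symm

theorem num_self (a b d x : K) (hx : x - a ≠ 0) :
    numr (-a) (-b) (-d) x a 0 / (x - a) ^ 2 - a = (a - b) * (a - d) / (x - a) := by
  unfold numr
  field_simp
  ring

theorem num_other (a b d x : K) (hx : x - a ≠ 0) :
    numr (-a) (-b) (-d) x a 0 / (x - a) ^ 2 - b = (a - b) * (x - d) / (x - a) := by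
  unfold numr
  field_simp
  ring

theorem num_other' (a b d x : K) (hx : x - a ≠ 0) :
    numr (-a) (-b) (-d) x a 0 / (x - a) ^ 2 - d = (a - d) * (x - b) / (x - a) := by
  unfold numr
  field_simp
  ring

theorem num_p1 (e1 e2 e3 x a s : K) : numr e1 e2 e3 x a s = numr e2 e1 e3 x a s := by
  unfold numr
  ring

theorem num_p2 (e1 e2 e3 x a s : K) : numr e1 e2 e3 x a s = numr e3 e1 e2 x a s := by
  unfold numr
  ring

theorem trans_pt {α : Fin 3 → K} (hα : Function.Injective α) {x y : K} (hy : y ≠ 0)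
    (h : (crv (-α 0) (-α 1) (-α 2)).toAffine.Nonsingular x y) (i : Fin 3) :
    ∃ (x3 y3 : K) (h3 : (crv (-α 0) (-α 1) (-α 2)).toAffine.Nonsingular x3 y3),
      (Affine.Point.some x y h : Ea α) + tp2 hα i = Affine.Point.some x3 y3 h3 ∧
      ∀ j, ∃ z : K, z ≠ 0 ∧ (x3 - α j) * (x - α j) * tr α i j = z ^ 2 := by
  have he := eqn.1 h.1
  have hne := sub_ne hy he
  have hxi : x ≠ α i := sub_ne_zero.1 (hne i)
  obtain ⟨x3, y3, h3, e1, e2⟩ := tor_some h (ns_tor hα i) hxi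
  refine ⟨x3, y3, h3, e1, ?_⟩
  have hd : ∀ a b, a ≠ b → α a - α b ≠ 0 := fun a b hab => sub_ne_zero.2 fun hh => hab (hα hh)
  have hself : ∀ a b d : Fin 3, a ≠ b → a ≠ d → b ≠ d →
      tr α a a = (α a - α b) * (α a - α d) := by
    intro a b d hab had hbd
    have er_pair : ∀ a b d : Fin 3, a ≠ b → a ≠ d → b ≠ d → univ.erase a = {b, d} := by decide
    unfold tr
    rw [if_pos rfl, er_pair a b d hab had hbd, prod_pair hbd]
  have hoth : ∀ a b : Fin 3, a ≠ b → tr α a b = α a - α b := by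
    intro a b hab
    unfold tr
    rw [if_neg (Ne.symm hab)]
  have key : ∀ a b d : Fin 3, a ≠ b → a ≠ d → b ≠ d → i = a →
      x3 = numr (-α a) (-α b) (-α d) x (α a) 0 / (x - α a) ^ 2 →
      (x - α a) * (x - α b) * (x - α d) = y ^ 2 →
      (∃ z : K, z ≠ 0 ∧ (x3 - α a) * (x - α a) * tr α i a = z ^ 2) ∧
      (∃ z : K, z ≠ 0 ∧ (x3 - α b) * (x - α b) * tr α i b = z ^ 2) ∧
      (∃ z : K, z ≠ 0 ∧ (x3 - α d) * (x - α d) * tr α i d = z ^ 2) := by
    intro a b d hab had hbd hia hx3 hye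
    subst hia
    have n0 := hne i
    refine ⟨⟨(α i - α b) * (α i - α d), mul_ne_zero (hd _ _ hab) (hd _ _ had), ?_⟩,
      ⟨(α i - α b) * y / (x - α i), div_ne_zero (mul_ne_zero (hd _ _ hab) hy) n0, ?_⟩,
      ⟨(α i - α d) * y / (x - α i), div_ne_zero (mul_ne_zero (hd _ _ had) hy) n0, ?_⟩⟩
    · rw [hx3, num_self _ _ _ _ n0, hself i b d hab had hbd]
      field_simp
    · rw [hx3, num_other _ _ _ _ n0, hoth i b hab, div_pow, mul_pow, ← hye]
      field_simp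
    · rw [hx3, num_other' _ _ _ _ n0, hoth i d had, div_pow, mul_pow, ← hye]
      field_simp
  rcases (show i = 0 ∨ i = 1 ∨ i = 2 by fin_cases i <;> simp) with hi | hi | hi
  · obtain ⟨k0, k1, k2⟩ := key 0 1 2 (by decide) (by decide) (by decide) hi (by rw [e2, hi]) he
    exact f3 k0 k1 k2
  · obtain ⟨k1, k0, k2⟩ := key 1 0 2 (by decide) (by decide) (by decide) hi
      (by rw [e2, hi, num_p1]) (by rw [← he]; ring)
    exact f3 k0 k1 k2
  · obtain ⟨k2, k0, k1⟩ := key 2 0 1 (by decide) (by decide) (by decide) hi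
      (by rw [e2, hi, num_p2]) (by rw [← he]; ring)
    exact f3 k0 k1 k2

/-- all classes are squares -/
theorem dbl0 {α : Fin 3 → K} (hα : Function.Injective α) {x y : K}
    (h : (crv (-α 0) (-α 1) (-α 2)).toAffine.Nonsingular x y)
    (hz : ∀ j, ∃ z : K, x - α j = z ^ 2) :
    ∃ Q : Ea α, Q + Q = Affine.Point.some x y h := by
  obtain ⟨h1, h2, h3⟩ := ne' hα
  obtain ⟨z0, e0⟩ := hz 0
  obtain ⟨z1, e1⟩ := hz 1
  obtain ⟨z2, e2⟩ := hz 2
  exact halve h1 h2 h3 (r1 := z0) (r2 := z1) (r3 := z2) (by rw [← e0]; ring)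
    (by rw [← e1]; ring) (by rw [← e2]; ring) h

theorem dbl0' {α : Fin 3 → K} (hα : Function.Injective α) {x y : K} (hy : y ≠ 0)
    (h : (crv (-α 0) (-α 1) (-α 2)).toAffine.Nonsingular x y) (i : Fin 3)
    (hz : ∀ j, ∃ z : K, (x - α j) * tr α i j = z ^ 2) :
    ∃ Q : Ea α, Q + Q = Affine.Point.some x y h + tp2 hα i := by
  obtain ⟨x3, y3, h3, e1, e2⟩ := trans_pt hα hy h i
  rw [e1]
  apply dbl0 hα
  intro j
  obtain ⟨z, hz'⟩ := hz j
  obtain ⟨w, hw, hw'⟩ := e2 j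
  have hz0 : z ≠ 0 := by
    rintro rfl
    rw [zero_pow two_ne_zero] at hz'
    rw [mul_assoc, hz', mul_zero] at hw'
    exact pow_ne_zero 2 hw hw'.symm
  refine ⟨w / z, ?_⟩
  rw [div_pow, ← hw', mul_assoc, hz', mul_div_assoc, div_self (pow_ne_zero 2 hz0), mul_one]

theorem dbl1 {α : Fin 3 → K} (hα : Function.Injective α) {x1 y1 x2 y2 : K}
    (h1 : (crv (-α 0) (-α 1) (-α 2)).toAffine.Nonsingular x1 y1)
    (h2 : (crv (-α 0) (-α 1) (-α 2)).toAffine.Nonsingular x2 y2)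
    (hz : ∀ j, ∃ z : K, z ≠ 0 ∧ (x1 - α j) * (x2 - α j) = z ^ 2) :
    ∃ Q : Ea α, Q + Q = Affine.Point.some x1 y1 h1 + Affine.Point.some x2 y2 h2 := by
  obtain ⟨n1, n2, n3⟩ := ne' hα
  obtain ⟨z0, m0, e0⟩ := hz 0
  obtain ⟨z1, m1, e1⟩ := hz 1
  obtain ⟨z2, m2, e2⟩ := hz 2
  exact add_double n1 n2 n3 h1 h2 (r1 := z0) (r2 := z1) (r3 := z2) m0 m1 m2 (by rw [← e0]; ring)
    (by rw [← e1]; ring) (by rw [← e2]; ring)

theorem dbl1' {α : Fin 3 → K} (hα : Function.Injective α) {x1 y1 x2 y2 : K} (hy1 : y1 ≠ 0)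
    (hy2 : y2 ≠ 0)
    (h1 : (crv (-α 0) (-α 1) (-α 2)).toAffine.Nonsingular x1 y1)
    (h2 : (crv (-α 0) (-α 1) (-α 2)).toAffine.Nonsingular x2 y2) (i : Fin 3)
    (hz : ∀ j, ∃ z : K, (x1 - α j) * (x2 - α j) * tr α i j = z ^ 2) :
    ∃ Q : Ea α, Q + Q = Affine.Point.some x1 y1 h1 + tp2 hα i + Affine.Point.some x2 y2 h2 := by
  obtain ⟨x3, y3, h3, e1, e2⟩ := trans_pt hα hy1 h1 i
  rw [e1]
  apply dbl1 hα
  have n1 := sub_ne hy1 (eqn.1 h1.1)
  have n2 := sub_ne hy2 (eqn.1 h2.1)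
  intro j
  obtain ⟨z, hz'⟩ := hz j
  obtain ⟨w, hw, hw'⟩ := e2 j
  have ht : tr α i j ≠ 0 := by
    intro h0
    rw [h0, mul_zero] at hw'
    exact pow_ne_zero 2 hw hw'.symm
  have hz0 : z ≠ 0 := by
    rintro rfl
    rw [zero_pow two_ne_zero] at hz'
    exact mul_ne_zero (mul_ne_zero (n1 j) (n2 j)) ht hz'
  refine ⟨w * z / ((x1 - α j) * tr α i j), div_ne_zero (mul_ne_zero hw hz0)
    (mul_ne_zero (n1 j) ht), ?_⟩
  rw [div_pow, mul_pow, ← hw', ← hz', eq_div_iff (pow_ne_zero 2 (mul_ne_zero (n1 j) ht))]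
  ring

end Pool.Agent.D0H99.DE.Hv
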