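import Pool.Agent.D0H99.DE.Tri
import Pool.Agent.D0H99.DE.Loc2
import Pool.Agent.D0H99.DE.Tr

/-!
Explicit 2-descent: the index of the doubles in the group of points.
-/

set_option autoImplicit false
set_option linter.all false

open Polynomial IsDedekindDomain WeierstrassCurve

namespace Pool.Agent.D0H99.DE

open Finset
open Pool.Agent.Y164.SZ
open Pool.Agent.Y713.SE (hp Pw)
open Pool.Agent.D0H99.FT (br nu cs)
open Pool.Agent.D0H99.RM (Dtb V Sol)
open Hv (Ea tp2)

section abs

theorem idx_abs {A S : Type} [AddCommGroup A] [Finite S] (f : S → A)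
    (h : ∀ P : A, ∃ s, ∃ Q, Q + Q = P + f s) :
    (nsmulAddMonoidHom (α := A) 2).range.FiniteIndex ∧
      Nat.card (A ⧸ (nsmulAddMonoidHom (α := A) 2).range) ≤ Nat.card S := by
  have hs : Function.Surjective
      (fun s => (QuotientAddGroup.mk (-f s) : A ⧸ (nsmulAddMonoidHom (α := A) 2).range)) := by
    intro q
    obtain ⟨P, rfl⟩ := QuotientAddGroup.mk_surjective q
    obtain ⟨s, Q, hQ⟩ := h P
    refine ⟨s, ?_⟩
    rw [QuotientAddGroup.eq]
    refine ⟨Q, ?_⟩
    rw [nsmulAddMonoidHom_apply, two_nsmul, hQ]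
    abel
  have hfin : Finite (A ⧸ (nsmulAddMonoidHom (α := A) 2).range) := Finite.of_surjective _ hs
  exact ⟨AddSubgroup.finiteIndex_of_finite_quotient, Nat.card_le_card_of_surjective _ hs⟩

end abs

section
variable {k : Type} [Field k] [Fintype k] [DecidableEq k]
variable {K : Type} [Field K] [Algebra k[X] K] [IsFractionRing k[X] K] [NeZero (2 : K)]
  [DecidableEq K]
variable {c : Fin 2 → k} {g : k[X]} {P : Fin 2 → k[X]} {r : ℕ} {T : Fin r → k[X]}

theorem rt_inj (H : Dtb 2 c g P T (fun _ => 1)) : Function.Injective (rt K c g T) := by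
  intro i j hij
  by_contra h
  exact rt_ne H h (sub_eq_zero.2 hij)

/-- the solutions of the system -/
def SolSet (P : Fin 2 → k[X]) (T : Fin r → k[X]) : Set (Fin r → V 2 2) :=
  {a | Sol (fun _ => 1) (fun x y => L 2 (T y) (T x)) (fun x s => L 2 (P s) (T x)) a}

theorem zero_mem : (0 : Fin r → V 2 2) ∈ SolSet P T := by
  intro y c
  simp

theorem pt_cases {α : Fin 3 → K} (hα : Function.Injective α) (Q : Ea α) :
    Q = 0 ∨ (∃ i, Q = tp2 hα i) ∨ ∃ x y h, y ≠ 0 ∧ Q = Affine.Point.some x y h := by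
  rcases Q with _ | ⟨x, y, h⟩
  · exact Or.inl rfl
  · right
    by_cases hy : y = 0
    · left
      subst hy
      have h1 := Hv.eqn.1 h.1
      rw [zero_pow two_ne_zero, mul_eq_zero, mul_eq_zero] at h1
      rcases h1 with (h1 | h1) | h1
      · have h2 := sub_eq_zero.1 h1
        subst h2
        exact ⟨0, rfl⟩
      · have h2 := sub_eq_zero.1 h1
        subst h2
        exact ⟨1, rfl⟩
      · have h2 := sub_eq_zero.1 h1
        subst h2
        exact ⟨2, rfl⟩
    · right
      exact ⟨x, y, h, hy, rfl⟩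

/-- a point with the given vector -/
def Wp (P : Fin 2 → k[X]) (T : Fin r → k[X]) (α : Fin 3 → K) (a : Fin r → V 2 2)
    (Q : Ea α) : Prop :=
  ∃ x y h, y ≠ 0 ∧ Q = Affine.Point.some x y h ∧ Vec T P (fun i => x - α i) a

theorem cover (H : Dtb 2 c g P T (fun _ => 1)) :
    ∃ f : (SolSet P T) × Option (Fin 3) → Ea (rt K c g T),
      ∀ Q, ∃ s, ∃ R, R + R = Q + f s := by
  classical
  have hα := rt_inj (K := K) H
  have ht : ∀ i, Sel (K := K) H (tors K c g T i) := sel_tors H
  obtain ⟨ref, href⟩ : ∃ ref : (Fin r → V 2 2) → Ea (rt K c g T), ref = fun a =>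
      if a = 0 then 0 else if h : ∃ Q, Wp P T (rt K c g T) a Q then h.choose else 0 := ⟨_, rfl⟩
  have ref0 : ref 0 = 0 := by rw [href]; simp only [if_pos]
  have ref1 : ∀ a Q, a ≠ 0 → Wp P T (rt K c g T) a Q → Wp P T (rt K c g T) a (ref a) := by
    intro a Q ha hQ
    have hex : ∃ Q, Wp P T (rt K c g T) a Q := ⟨Q, hQ⟩
    have : ref a = hex.choose := by
      rw [href]
      simp only [if_neg ha, dif_pos hex]
    rw [this]
    exact hex.choose_spec
  refine ⟨fun s => ref s.1.1 + s.2.elim 0 (fun i => tp2 hα i), fun Q => ?_⟩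
  rcases pt_cases hα Q with rfl | ⟨i, rfl⟩ | ⟨x, y, h, hy, rfl⟩
  · refine ⟨(⟨0, zero_mem⟩, none), 0, ?_⟩
    simp only [ref0, Option.elim_none, add_zero]
  · refine ⟨(⟨0, zero_mem⟩, some i), tp2 hα i, ?_⟩
    simp only [ref0, Option.elim_some, zero_add]
  · have h1 := Hv.eqn.1 h.1
    have hS := sel_pt H hy h1
    obtain ⟨a, ha⟩ := exists_vec hS
    have hsol := sol_of hS ha
    by_cases ha0 : a = 0
    · rw [ha0] at ha
      rcases triv_of ht hS ha with h2 | ⟨i, h2⟩
      · obtain ⟨R, hR⟩ := Hv.dbl0 hα h h2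
        refine ⟨(⟨0, zero_mem⟩, none), R, ?_⟩
        simp only [ref0, Option.elim_none, add_zero]
        exact hR
      · obtain ⟨R, hR⟩ := Hv.dbl0' hα hy h i h2
        refine ⟨(⟨0, zero_mem⟩, some i), R, ?_⟩
        simp only [ref0, Option.elim_some, zero_add]
        exact hR
    · obtain ⟨x', y', h', hy', e', ha'⟩ := ref1 a _ ha0 ⟨x, y, h, hy, rfl, ha⟩
      have hS' := sel_pt H hy' (Hv.eqn.1 h'.1)
      have hv := Vec.mul H ha ha'
      have haa : a + a = 0 := by
        funext u v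
        exact z_add_self _
      rw [haa] at hv
      rcases triv_of ht (hS.mul hS') hv with h2 | ⟨i, h2⟩
      · have h3 : ∀ j, ∃ z : K, z ≠ 0 ∧ (x - rt K c g T j) * (x' - rt K c g T j) = z ^ 2 := by
          intro j
          obtain ⟨z, hz⟩ := h2 j
          refine ⟨z, ?_, hz⟩
          rintro rfl
          rw [zero_pow two_ne_zero] at hz
          exact mul_ne_zero (hS.ne j) (hS'.ne j) hz
        obtain ⟨R, hR⟩ := Hv.dbl1 hα h h' h3
        refine ⟨(⟨a, hsol⟩, none), R, ?_⟩
        simp only [e', Option.elim_none, add_zero]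
        exact hR
      · obtain ⟨R, hR⟩ := Hv.dbl1' hα hy hy' h h' i h2
        refine ⟨(⟨a, hsol⟩, some i), R, ?_⟩
        simp only [e', Option.elim_some]
        rw [hR]
        abel

theorem idx (H : Dtb 2 c g P T (fun _ => 1)) :
    (nsmulAddMonoidHom (α := Ea (rt K c g T)) 2).range.FiniteIndex ∧
      Nat.card (Ea (rt K c g T) ⧸ (nsmulAddMonoidHom (α := Ea (rt K c g T)) 2).range) ≤
        4 * (SolSet P T).ncard := by
  obtain ⟨f, hf⟩ := cover (K := K) H
  obtain ⟨h1, h2⟩ := idx_abs f hf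
  refine ⟨h1, h2.trans ?_⟩
  rw [Nat.card_prod, Nat.card_eq_fintype_card (α := Option (Fin 3)), Fintype.card_option,
    Fintype.card_fin, Nat.card_coe_set_eq]
  omega

end

end Pool.Agent.D0H99.DE
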