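import Pool.Agent.D0H99.DE.Rk
import Pool.Agent.D0H99.RM.Eq
import Pool.Agent.D0H99.FT.Pp
import Pool.Agent.D0H52.RM.Mo2

/-!
The ranks of the twists by products of random primes.
-/

set_option autoImplicit false
set_option linter.all false

open Polynomial IsDedekindDomain WeierstrassCurve Filter

namespace Pool.Agent.D0H99.DE

open Finset
open Pool.Agent.Y164.SZ
open Pool.Agent.Y164.PS (Fam Pr mem_Pr)
open Pool.Agent.D0H99.FT (br nu cs zeta_data sym0 chr)
open Pool.Agent.D0H99.RM (Dtb V Sol X sy nsol crv Dist Pt av_le le_prop S_MO2 S_CL2)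

open scoped Classical in
/-- the rank of the twist -/
noncomputable def rk {k : Type} [Field k] (g : k[X]) (a b : k) (D : k[X]) : ℕ :=
  Module.finrank ℤ (crv (algebraMap k[X] (RatFunc k) (D * g))
    (algebraMap k[X] (RatFunc k) (D * C a)) (algebraMap k[X] (RatFunc k) (D * C b))).toAffine.Point

section
variable {k : Type} [Field k] [Fintype k] [DecidableEq k]

/-- the nodes -/
theorem nodes {g : k[X]} {N : ℕ} (hN : 0 < N) (hg : g.natDegree = N) (c : Fin 2 → k)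
    (hc : Function.Injective c) (hirr : ∀ s, Irreducible (g - C (c s))) :
    ∃ P : Fin 2 → k[X], (∀ s, (P s).Monic) ∧ (∀ s, Irreducible (P s)) ∧ Function.Injective P ∧
      (∀ s, (P s).natDegree = N) ∧ ∀ s, g - C (c s) = C g.leadingCoeff * P s := by
  have hg0 : g ≠ 0 := by
    rintro rfl
    rw [natDegree_zero] at hg
    omega
  have hlc : g.leadingCoeff ≠ 0 := leadingCoeff_ne_zero.2 hg0
  have hlc' : ∀ s, (g - C (c s)).leadingCoeff = g.leadingCoeff := by
    intro s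
    apply leadingCoeff_sub_of_degree_lt
    refine lt_of_le_of_lt degree_C_le (natDegree_pos_iff_degree_pos.1 ?_)
    omega
  have hlc2 : C g.leadingCoeff * C (g.leadingCoeff)⁻¹ = 1 := by
    rw [← C_mul, mul_inv_cancel₀ hlc, C_1]
  refine ⟨fun s => C (g.leadingCoeff)⁻¹ * (g - C (c s)), ?_, ?_, ?_, ?_, ?_⟩
  · intro s
    rw [Monic, leadingCoeff_mul, leadingCoeff_C, hlc', inv_mul_cancel₀ hlc]
  · intro s
    have hu : IsUnit (C (g.leadingCoeff)⁻¹ : k[X]) :=
      isUnit_C.2 (isUnit_iff_ne_zero.2 (inv_ne_zero hlc))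
    exact (irreducible_isUnit_mul hu).2 (hirr s)
  · intro s s' h
    have h1 : C (g.leadingCoeff)⁻¹ ≠ (0 : k[X]) := C_ne_zero.2 (inv_ne_zero hlc)
    have h2 := mul_left_cancel₀ h1 h
    exact hc (C_injective (sub_right_inj.1 h2))
  · intro s
    rw [natDegree_C_mul (inv_ne_zero hlc), natDegree_sub_C, hg]
  · intro s
    rw [← mul_assoc, hlc2, one_mul]

theorem rank_bound (S : SYM0 2 k) (h2 : (2 : k) ≠ 0) (hneg : ∃ z : k, z ^ 2 = -1) {g : k[X]}
    {N : ℕ} (hN : ¬ 2 ∣ N) (hg : g.natDegree = N) {a b : k} (hab : a ≠ b) {P : Fin 2 → k[X]}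
    (hPm : ∀ s, (P s).Monic) (hPi : ∀ s, Irreducible (P s)) (hPinj : Function.Injective P)
    (hPd : ∀ s, (P s).natDegree = N) (hP : ∀ s, g - C (![a, b] s) = C g.leadingCoeff * P s)
    {r n : ℕ} (hn : 2 ∣ n) {c0 : k} (hc0 : c0 ≠ 0) (x : X 2 2 r) {d : Fin r → k[X]}
    (hd : d ∈ Pt 2 P n (sy x.1) x.2) :
    2 ^ rk g a b (C c0 * ∏ i, d i) ≤ nsol x := by
  classical
  rw [Pt, mem_filter, Fintype.mem_piFinset] at hd
  obtain ⟨hd1, hd2, hd3, hd4⟩ := hd
  have hd5 : ∀ i, (d i).Monic ∧ Irreducible (d i) ∧ (d i).natDegree = n := fun i =>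
    mem_Pr.1 (hd1 i)
  have H : Dtb 2 (![c0 * a, c0 * b]) (C c0 * g) P d (fun _ => 1) :=
    { S := S
      hl := hneg
      hlk := by exact_mod_cast h2
      hm := le_refl 2
      hn := by decide
      hc := by
        intro i j hij
        fin_cases i <;> fin_cases j
        · rfl
        · exact absurd (mul_left_cancel₀ hc0 hij) hab
        · exact absurd (mul_left_cancel₀ hc0 hij) hab.symm
        · rfl
      hg := by
        rw [natDegree_C_mul hc0, hg]
        exact hN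
      hP := by
        intro s
        rw [leadingCoeff_mul, leadingCoeff_C, C_mul, mul_assoc, ← hP s, mul_sub, ← C_mul]
        congr 2
        fin_cases s <;> rfl
      fam := by
        refine ⟨?_, ?_, ?_⟩
        · rintro (y | s)
          · exact (hd5 y).1
          · exact hPm s
        · rintro (y | s)
          · exact (hd5 y).2.1
          · exact hPi s
        · refine hd2.sumElim hPinj ?_
          intro y s h
          apply hN
          rw [← hPd s, ← h, (hd5 y).2.2]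
          exact hn
      ht := fun _ => by decide
      hTd := fun y => by
        rw [(hd5 y).2.2]
        exact (ZMod.natCast_eq_zero_iff _ _).2 hn }
  have h1 := rank_le h2 H
  have e1 : (fun x y => L 2 (d y) (d x)) = sy x.1 := by
    funext i j
    by_cases hij : i = j
    · subst hij
      have h8 : L 2 (d i) (d i) = 0 := by
        apply S.L_nc _ _ (hd5 i).2.1.ne_zero
        intro h
        exact (hd5 i).2.1.not_isUnit (h.isUnit_of_dvd' dvd_rfl dvd_rfl)
      have h9 : sy x.1 i i = 0 := by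
        unfold sy
        rw [dif_neg (lt_irrefl _), dif_neg (lt_irrefl _)]
      rw [h8, h9]
    · exact hd4 i j hij
  have e2 : (fun x s => L 2 (P s) (d x)) = x.2 := by
    funext i s
    exact hd3 i s
  have e3 : (SolSet P d).ncard = nsol x := by
    unfold SolSet nsol
    rw [e1, e2]
  rw [e3] at h1
  have e4 : rt (RatFunc k) (![c0 * a, c0 * b]) (C c0 * g) d 0 =
      algebraMap k[X] (RatFunc k) ((C c0 * ∏ i, d i) * g) := by
    unfold rt
    congr 1
    change (C c0 * g) * ∏ x, d x = _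
    ring
  have e5 : rt (RatFunc k) (![c0 * a, c0 * b]) (C c0 * g) d 1 =
      algebraMap k[X] (RatFunc k) ((C c0 * ∏ i, d i) * C a) := by
    unfold rt
    congr 1
    change (C (c0 * a)) * ∏ x, d x = _
    rw [C_mul]
    ring
  have e6 : rt (RatFunc k) (![c0 * a, c0 * b]) (C c0 * g) d 2 =
      algebraMap k[X] (RatFunc k) ((C c0 * ∏ i, d i) * C b) := by
    unfold rt
    congr 1
    change (C (c0 * b)) * ∏ x, d x = _
    rw [C_mul]
    ring
  rw [e4, e5, e6] at h1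
  exact h1

end

theorem sum_nsol (h : S_CL2) {ε : ℝ} (hε : 0 < ε) : ∃ r0 : ℕ, ∀ r : ℕ, r0 ≤ r →
    ((∑ x : X 2 2 r, nsol x : ℕ) : ℝ) ≤ (3 + ε) * (Nat.card (X 2 2 r) : ℝ) := by
  have h1 : Tendsto (fun r : ℕ => (2 : ℝ) ^ 16 * (3 / 4 : ℝ) ^ r) atTop (nhds ((2 : ℝ) ^ 16 * 0)) :=
    (tendsto_pow_atTop_nhds_zero_of_lt_one (by norm_num) (by norm_num)).const_mul _
  rw [mul_zero] at h1
  obtain ⟨r0, hr0⟩ := eventually_atTop.1 (h1.eventually (gt_mem_nhds hε))
  refine ⟨r0, fun r hr => ?_⟩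
  have h2 := hr0 r hr
  have h3 := Pool.Agent.D0H52.RM.total (m := 2) (r := r) h (by decide)
  have h4 : ((∑ x : X 2 2 r, nsol x : ℕ) : ℝ) * (4 : ℝ) ^ r ≤
      (Nat.card (X 2 2 r) : ℝ) * (3 * (4 : ℝ) ^ r + 2 ^ 16 * 3 ^ r) := by
    have h5 : (((∑ x : X 2 2 r, nsol x) * (2 ^ 2) ^ r : ℕ) : ℝ) ≤
        ((Nat.card (X 2 2 r) * (3 * (2 ^ 2) ^ r + 2 ^ (2 ^ 2 * 2 ^ 2) * (2 ^ 2 - 1) ^ r) : ℕ) : ℝ) := by
      exact_mod_cast h3
    have e1 : (2 ^ 2 : ℕ) = 4 := by norm_num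
    have e2 : (4 - 1 : ℕ) = 3 := by norm_num
    have e3 : (4 * 4 : ℕ) = 16 := by norm_num
    rw [e1, e2, e3] at h5
    push_cast at h5
    exact_mod_cast h5
  have h6 : (0 : ℝ) < (4 : ℝ) ^ r := by positivity
  have h7 : (2 : ℝ) ^ 16 * 3 ^ r = (2 ^ 16 * (3 / 4) ^ r) * 4 ^ r := by
    rw [div_pow]
    field_simp
  rw [h7] at h4
  have h8 : ((∑ x : X 2 2 r, nsol x : ℕ) : ℝ) * (4 : ℝ) ^ r ≤
      ((Nat.card (X 2 2 r) : ℝ) * (3 + (2 ^ 16 * (3 / 4) ^ r))) * (4 : ℝ) ^ r := by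
    refine h4.trans (le_of_eq ?_)
    ring
  have h9 := le_of_mul_le_mul_right h8 h6
  refine h9.trans ?_
  rw [mul_comm]
  exact mul_le_mul_of_nonneg_right (by linarith) (Nat.cast_nonneg _)

/-- the tuples of distinct primes -/
def Tup (k : Type) [Field k] (r n : ℕ) : Set (Fin r → k[X]) :=
  {d | Function.Injective d ∧ ∀ i, (d i).Monic ∧ Irreducible (d i) ∧ (d i).natDegree = n}

theorem main (hMO : S_MO2) (hCL : S_CL2) {ε : ℝ} (hε : 0 < ε) : ∃ r0 : ℕ, ∀ r : ℕ, r0 ≤ r →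
    ∀ (k : Type) [Field k] [Finite k], (2 : k) ≠ 0 → 2 ∣ Nat.card k - 1 → (∃ z : k, z ^ 2 = -1) →
    ∀ N : ℕ, ¬ 2 ∣ N →
    ∀ᶠ n : ℕ in atTop, 2 ∣ n → ∀ (g : k[X]) (a b : k), g.natDegree = N → a ≠ b →
      Irreducible (g - C a) → Irreducible (g - C b) → ∀ c0 : k, c0 ≠ 0 →
      (1 / 6 - ε) * ((Tup k r n).ncard : ℝ) ≤
        (({d ∈ Tup k r n | rk g a b (C c0 * ∏ i, d i) = 0}).ncard : ℝ) ∧
      (7 / 12 - ε) * ((Tup k r n).ncard : ℝ) ≤
        (({d ∈ Tup k r n | rk g a b (C c0 * ∏ i, d i) ≤ 1}).ncard : ℝ) ∧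
      ∑ᶠ d ∈ Tup k r n, (rk g a b (C c0 * ∏ i, d i) : ℝ) ≤
        (4 / 3 + ε) * ((Tup k r n).ncard : ℝ) ∧
      ∑ᶠ d ∈ Tup k r n, (2 : ℝ) ^ rk g a b (C c0 * ∏ i, d i) ≤
        (3 + ε) * ((Tup k r n).ncard : ℝ) := by
  obtain ⟨r1, hr1⟩ := hMO 2 (by decide) (le_refl 2) (ε / 2) (half_pos hε)
  obtain ⟨r2, hr2⟩ := sum_nsol hCL (half_pos hε)
  refine ⟨max r1 r2, fun r hr k _ _ h2 hlk hneg N hN => ?_⟩
  classical
  obtain ⟨m1, m2, m3⟩ := hr1 r ((le_max_left _ _).trans hr)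
  have m4 := hr2 r ((le_max_right _ _).trans hr)
  obtain ⟨hlk0, ζ, hζ⟩ := zeta_data Nat.prime_two hlk
  letI : Fintype k := Fintype.ofFinite k
  have hchar : ringChar k ≠ 2 := by
    intro h
    apply h2
    have := ringChar.Nat.cast_ringChar (R := k)
    rw [h] at this
    exact_mod_cast this
  have hcard : Nat.card k = Fintype.card k := Nat.card_eq_fintype_card
  rw [hcard] at hlk
  have S : SYM0 2 k := sym0 hneg hlk
  have S' : SYM 2 k := chr hlk hchar S
  filter_upwards [le_prop S' hchar 2 hN r hε {x : X 2 2 r | nsol x = 1} m1,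
    le_prop S' hchar 2 hN r hε {x : X 2 2 r | nsol x ≤ 2} m2,
    av_le S' hchar 2 hN r (ρ := 4 / 3) hε (by norm_num) (fun x => Nat.log 2 (nsol x)) m3,
    av_le S' hchar 2 hN r (ρ := 3) hε (by norm_num) (fun x => nsol x) m4] with
    n e1 e2 e3 e4 hn g a b hg hab hga hgb c0 hc0
  obtain ⟨P, hPm, hPi, hPinj, hPd, hP⟩ := nodes (Nat.pos_of_ne_zero fun h => hN (by rw [h]; exact dvd_zero _))
    hg ![a, b] (by
      intro i j hij
      fin_cases i <;> fin_cases j
      · rfl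
      · exact absurd hij hab
      · exact absurd hij hab.symm
      · rfl) (by
      intro s
      fin_cases s
      · exact hga
      · exact hgb)
  have hb : ∀ x : X 2 2 r, ∀ d ∈ Pt 2 P n (sy x.1) x.2,
      2 ^ rk g a b (C c0 * ∏ i, d i) ≤ nsol x := fun x d hd =>
    rank_bound S h2 hneg hN hg hab hPm hPi hPinj hPd hP hn hc0 x hd
  have hT : Tup k r n = ((Pool.Agent.D0H99.RM.Dist k r n : Finset (Fin r → k[X])) : Set (Fin r → k[X])) := by
    ext d
    rw [mem_coe, Pool.Agent.D0H99.RM.Dist, mem_filter, Fintype.mem_piFinset, Tup, Set.mem_setOf_eq, and_comm]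
    exact and_congr (forall_congr' fun i => (mem_Pr (k := k)).symm) Iff.rfl
  rw [hT, Set.ncard_coe_finset, finsum_mem_coe_finset, finsum_mem_coe_finset]
  refine ⟨?_, ?_, ?_, ?_⟩
  · refine e1 hn P hPm hPi hPinj hPd {d | rk g a b (C c0 * ∏ i, d i) = 0} ?_
    intro x hx d hd
    have h3 := hb x d hd
    have hx' : nsol x = 1 := hx
    rw [hx'] at h3
    rw [Set.mem_setOf_eq]
    by_contra h
    have := Nat.one_lt_two_pow h
    omega
  · refine e2 hn P hPm hPi hPinj hPd {d | rk g a b (C c0 * ∏ i, d i) ≤ 1} ?_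
    intro x hx d hd
    have h3 := hb x d hd
    have hx' : nsol x ≤ 2 := hx
    rw [Set.mem_setOf_eq]
    by_contra h
    push Not at h
    have h4 : 2 ^ 2 ≤ 2 ^ rk g a b (C c0 * ∏ i, d i) := Nat.pow_le_pow_right (by norm_num) h
    omega
  · refine e3 hn P hPm hPi hPinj hPd (fun d => rk g a b (C c0 * ∏ i, d i)) ?_
    intro x d hd
    exact Nat.le_log_of_pow_le (by norm_num) (hb x d hd)
  · have h5 := e4 hn P hPm hPi hPinj hPd (fun d => 2 ^ rk g a b (C c0 * ∏ i, d i)) hb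
    refine le_trans (le_of_eq ?_) h5
    refine sum_congr rfl fun d _ => ?_
    push_cast
    rfl

end Pool.Agent.D0H99.DE
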