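import Mathlib

/-!
The rank of a finitely generated abelian group and the index of the doubles.
-/

set_option autoImplicit false
set_option linter.all false

namespace Pool.Agent.D0H99.DE

open Module

/-- Rank-nullity over `ℤ`. -/
theorem ker_add_range {A B : Type*} [AddCommGroup A] [AddCommGroup B]
    [Module.Finite ℤ A] (f : A →ₗ[ℤ] B) :
    finrank ℤ (LinearMap.ker f) + finrank ℤ (LinearMap.range f) = finrank ℤ A := by
  have h1 := (LinearMap.ker f).finrank_quotient_add_finrank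
  rw [LinearEquiv.finrank_eq f.quotKerEquivRange] at h1
  omega

theorem finrank_fin (T : Type*) [AddCommGroup T] [Finite T] : finrank ℤ T = 0 := by
  rw [Module.finrank_eq_zero_iff_isTorsion]
  intro x
  have h : 0 < Nat.card T := Nat.card_pos
  refine ⟨⟨(Nat.card T : ℤ), mem_nonZeroDivisors_of_ne_zero (by exact_mod_cast h.ne')⟩, ?_⟩
  change (Nat.card T : ℤ) • x = 0
  rw [natCast_zsmul]
  exact card_nsmul_eq_zero'

theorem finrank_prod_fin (n : ℕ) (F : Type) [AddCommGroup F] [Finite F] :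
    finrank ℤ ((Fin n →₀ ℤ) × F) = n := by
  have : Module.Finite ℤ F := Module.Finite.of_finite
  have h1 := ker_add_range (LinearMap.fst ℤ (Fin n →₀ ℤ) F)
  rw [LinearMap.range_eq_top.mpr (fun x => ⟨(x, 0), rfl⟩), finrank_top,
    Module.finrank_finsupp_self, Fintype.card_fin] at h1
  have h2 : finrank ℤ (LinearMap.ker (LinearMap.fst ℤ (Fin n →₀ ℤ) F)) = 0 := by
    have : Finite (LinearMap.ker (LinearMap.fst ℤ (Fin n →₀ ℤ) F)) := by
      refine Finite.of_injective (fun x => x.1.2) ?_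
      rintro ⟨⟨a, b⟩, ha⟩ ⟨⟨a', b'⟩, ha'⟩ h
      rw [LinearMap.mem_ker] at ha ha'
      simp only [LinearMap.fst_apply] at ha ha' h
      subst ha ha' h
      rfl
    exact finrank_fin _
  omega

theorem card_two (F : Type) [AddCommGroup F] [Finite F] :
    Nat.card (F ⧸ (nsmulAddMonoidHom (α := F) 2).range) =
      Nat.card (nsmulAddMonoidHom (α := F) 2).ker := by
  have h1 := AddSubgroup.card_eq_card_quotient_mul_card_addSubgroup
    (nsmulAddMonoidHom (α := F) 2).range
  have h2 := AddSubgroup.card_eq_card_quotient_mul_card_addSubgroup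
    (nsmulAddMonoidHom (α := F) 2).ker
  have h3 : Nat.card (F ⧸ (nsmulAddMonoidHom (α := F) 2).ker) =
      Nat.card (nsmulAddMonoidHom (α := F) 2).range :=
    Nat.card_congr (QuotientAddGroup.quotientKerEquivRange _).toEquiv
  rw [h3, mul_comm] at h2
  have h4 : 0 < Nat.card (nsmulAddMonoidHom (α := F) 2).range := Nat.card_pos
  exact Nat.eq_of_mul_eq_mul_right h4 (h1.symm.trans h2)

theorem rank_index {A : Type} [AddCommGroup A] (hfg : AddGroup.FG A)
    (hfin : (nsmulAddMonoidHom (α := A) 2).range.FiniteIndex) {S : Finset A}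
    (hS : ∀ a ∈ S, a + a = 0) :
    2 ^ finrank ℤ A * S.card ≤ Nat.card (A ⧸ (nsmulAddMonoidHom (α := A) 2).range) := by
  classical
  obtain ⟨n, ι, hι, p, hp, e, ⟨ψ⟩⟩ := AddCommGroup.equiv_free_prod_directSum_zmod (G := A)
  haveI : ∀ i, NeZero (p i ^ e i) := fun i => ⟨pow_ne_zero _ (hp i).ne_zero⟩
  obtain ⟨F, hF, hFfin, ⟨φ⟩⟩ : ∃ (F : Type) (_ : AddCommGroup F) (_ : Finite F),
      Nonempty (A ≃+ (Fin n →₀ ℤ) × F) := by
    refine ⟨_, _, ?_, ⟨ψ⟩⟩
    exact Finite.of_equiv _ (DirectSum.addEquivProd fun i => ZMod (p i ^ e i)).symm.toEquiv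
  have hrank : finrank ℤ A = n := by
    rw [LinearEquiv.finrank_eq φ.toIntLinearEquiv, finrank_prod_fin]
  rw [hrank]
  have hSF : S.card ≤ Nat.card (nsmulAddMonoidHom (α := F) 2).ker := by
    have h1 : ∀ a ∈ S, (φ a).1 = 0 ∧ (φ a).2 + (φ a).2 = 0 := by
      intro a ha
      have h2 : φ a + φ a = 0 := by rw [← map_add, hS a ha, map_zero]
      have h3 := congrArg Prod.fst h2
      have h4 := congrArg Prod.snd h2
      refine ⟨?_, h4⟩
      ext i
      have h5 := DFunLike.congr_fun h3 i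
      simp only [Prod.fst_add, Finsupp.coe_add, Pi.add_apply, Prod.fst_zero, Finsupp.coe_zero,
        Pi.zero_apply] at h5
      rw [Finsupp.coe_zero, Pi.zero_apply]
      omega
    have h6 : Function.Injective (fun a : S => (⟨(φ a.1).2, by
        rw [AddMonoidHom.mem_ker, nsmulAddMonoidHom_apply, two_nsmul]
        exact (h1 a.1 a.2).2⟩ : (nsmulAddMonoidHom (α := F) 2).ker)) := by
      intro a b hab
      have h7 : (φ a.1).2 = (φ b.1).2 := congrArg Subtype.val hab
      have h8 : φ a.1 = φ b.1 :=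
        Prod.ext (((h1 a.1 a.2).1).trans ((h1 b.1 b.2).1).symm) h7
      exact Subtype.ext (φ.injective h8)
    have h9 := Nat.card_le_card_of_injective _ h6
    rwa [Nat.card_eq_fintype_card, Fintype.card_coe] at h9
  rw [← card_two F] at hSF
  haveI : Finite (A ⧸ (nsmulAddMonoidHom (α := A) 2).range) := by
    haveI := hfin
    exact AddSubgroup.finite_quotient_of_finiteIndex
  obtain ⟨Φ, hΦ⟩ : ∃ Φ : A →+ (Fin n → ZMod 2) × (F ⧸ (nsmulAddMonoidHom (α := F) 2).range),
      ∀ a, Φ a = (fun i => (((φ a).1 i : ℤ) : ZMod 2), QuotientAddGroup.mk (φ a).2) := by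
    refine ⟨{ toFun := fun a =>
                (fun i => (((φ a).1 i : ℤ) : ZMod 2), QuotientAddGroup.mk (φ a).2)
              map_zero' := ?_
              map_add' := ?_ }, fun a => rfl⟩
    · simp only [map_zero, Prod.fst_zero, Prod.snd_zero, Finsupp.coe_zero, Pi.zero_apply,
        Int.cast_zero]
      rfl
    · intro a b
      simp only [map_add, Prod.fst_add, Prod.snd_add, Finsupp.coe_add, Pi.add_apply,
        Int.cast_add]
      rfl
  have hker : (nsmulAddMonoidHom (α := A) 2).range ≤ Φ.ker := by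
    rintro _ ⟨a, rfl⟩
    rw [AddMonoidHom.mem_ker, nsmulAddMonoidHom_apply, map_nsmul, hΦ]
    refine Prod.ext ?_ ?_
    · funext i
      change (2 : ℕ) • (((φ a).1 i : ℤ) : ZMod 2) = 0
      rw [nsmul_eq_mul]
      have : ((2 : ℕ) : ZMod 2) = 0 := rfl
      rw [this, zero_mul]
    · change (2 : ℕ) • (QuotientAddGroup.mk (φ a).2 :
        F ⧸ (nsmulAddMonoidHom (α := F) 2).range) = 0
      rw [← QuotientAddGroup.mk_nsmul]
      exact (QuotientAddGroup.eq_zero_iff _).2 ⟨(φ a).2, rfl⟩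
  have hsurj : Function.Surjective (QuotientAddGroup.lift _ Φ hker) := by
    rintro ⟨u, q⟩
    obtain ⟨f, rfl⟩ := QuotientAddGroup.mk_surjective q
    obtain ⟨w, hw⟩ : ∃ w : Fin n →₀ ℤ, ∀ i, ((w i : ℤ) : ZMod 2) = u i := by
      refine ⟨Finsupp.equivFunOnFinite.symm fun i => ((u i).val : ℤ), fun i => ?_⟩
      simp
    refine ⟨QuotientAddGroup.mk (φ.symm (w, f)), ?_⟩
    rw [QuotientAddGroup.lift_mk, hΦ, AddEquiv.apply_symm_apply]
    refine Prod.ext ?_ rfl
    funext i
    exact hw i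
  have h5 := Nat.card_le_card_of_surjective _ hsurj
  rw [Nat.card_prod, Nat.card_eq_fintype_card (α := Fin n → ZMod 2), Fintype.card_fun, ZMod.card,
    Fintype.card_fin] at h5
  exact (Nat.mul_le_mul_left _ hSF).trans h5

end Pool.Agent.D0H99.DE
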