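import Pool.Agent.D0H99.DE.Idx
import Pool.Agent.D0H99.DE.Rank
import Pool.Agent.D0H49.RM.Mw

/-!
Explicit 2-descent: the bound for the rank.
-/

set_option autoImplicit false
set_option linter.all false

open Polynomial IsDedekindDomain WeierstrassCurve

namespace Pool.Agent.D0H99.DE

open Finset
open Pool.Agent.Y164.SZ
open Pool.Agent.D0H99.FT (br nu cs)
open Pool.Agent.D0H99.RM (Dtb V Sol)
open Hv (Ea tp2)

section
variable {K : Type} [Field K] [NeZero (2 : K)] [DecidableEq K]

theorem tp2_add {α : Fin 3 → K} (hα : Function.Injective α) (i : Fin 3) :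
    tp2 hα i + tp2 hα i = 0 := by
  unfold tp2
  apply Affine.Point.add_of_Y_eq rfl
  simp only [Affine.negY, Pool.Agent.D0H49.RM.Par.crv]
  ring

theorem four_pts {α : Fin 3 → K} (hα : Function.Injective α) :
    ∃ S : Finset (Ea α), S.card = 4 ∧ ∀ a ∈ S, a + a = 0 := by
  classical
  have hinj : Function.Injective (fun o : Option (Fin 3) => (o.elim 0 (tp2 hα) : Ea α)) := by
    intro a b hab
    rcases a with _ | i <;> rcases b with _ | j
    · rfl
    · simp only [Option.elim_none, Option.elim_some] at hab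
      exact absurd hab (fun h => by
        unfold tp2 at h
        exact Affine.Point.some_ne_zero _ h.symm)
    · simp only [Option.elim_none, Option.elim_some] at hab
      exact absurd hab (fun h => by
        unfold tp2 at h
        exact Affine.Point.some_ne_zero _ h)
    · simp only [Option.elim_some] at hab
      unfold tp2 at hab
      rw [Affine.Point.some.injEq] at hab
      rw [hα hab.1]
  refine ⟨univ.image (fun o : Option (Fin 3) => (o.elim 0 (tp2 hα) : Ea α)), ?_, ?_⟩
  · rw [card_image_of_injective _ hinj, card_univ, Fintype.card_option, Fintype.card_fin]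
  · intro a ha
    rw [mem_image] at ha
    obtain ⟨o, -, rfl⟩ := ha
    rcases o with _ | i
    · simp
    · simp only [Option.elim_some]
      exact tp2_add hα i

end

section
variable {k : Type} [Field k] [Fintype k] [DecidableEq k]
variable {c : Fin 2 → k} {g : k[X]} {P : Fin 2 → k[X]} {r : ℕ} {T : Fin r → k[X]}

open scoped Classical in
theorem rank_le (h2 : (2 : k) ≠ 0) (H : Dtb 2 c g P T (fun _ => 1)) :
    2 ^ Module.finrank ℤ (Pool.Agent.D0H99.RM.crv (rt (RatFunc k) c g T 0) (rt (RatFunc k) c g T 1)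
      (rt (RatFunc k) c g T 2)).toAffine.Point ≤ (SolSet P T).ncard := by
  have h2' : (2 : RatFunc k) ≠ 0 := by
    have : (2 : RatFunc k) = algebraMap k (RatFunc k) 2 :=
      (map_ofNat (algebraMap k (RatFunc k)) 2).symm
    rw [this]
    exact (_root_.map_ne_zero _).mpr h2
  haveI : NeZero (2 : RatFunc k) := ⟨h2'⟩
  have hα := rt_inj (K := RatFunc k) H
  obtain ⟨h12, h13, h23⟩ := Hv.ne' hα
  obtain ⟨i1, i2⟩ := idx (K := RatFunc k) H
  have hfg := Pool.Agent.D0H49.RM.mw h2' h12 h13 h23 i1
  obtain ⟨S, hS4, hS⟩ := four_pts hα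
  have h3 := rank_index hfg i1 hS
  rw [hS4] at h3
  have hc : Pool.Agent.D0H99.RM.crv (rt (RatFunc k) c g T 0) (rt (RatFunc k) c g T 1)
      (rt (RatFunc k) c g T 2) = Pool.Agent.D0H49.RM.Par.crv (-rt (RatFunc k) c g T 0)
      (-rt (RatFunc k) c g T 1) (-rt (RatFunc k) c g T 2) := by
    simp only [Pool.Agent.D0H99.RM.crv, Pool.Agent.D0H49.RM.Par.crv]
    congr 1 <;> ring
  rw [hc]
  have h4 := h3.trans i2
  omega

end

end Pool.Agent.D0H99.DE
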