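import Pool.Agent.D0H99.DE.Alg

/-!
Explicit 2-descent: the vector of a Selmer class is a solution of the system.
-/

set_option autoImplicit false
set_option linter.all false

open Polynomial IsDedekindDomain

namespace Pool.Agent.D0H99.DE

open Finset
open Pool.Agent.Y164.SZ
open Pool.Agent.Y713.SE (hp Pw)
open Pool.Agent.Y164.PS (Fam el)
open Pool.Agent.D0H99.FT (br nu cs)
open Pool.Agent.D0H99.RM (Dtb V Sol)

section
variable {k : Type} [Field k] [Fintype k] [DecidableEq k]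
variable {K : Type} [Field K] [Algebra k[X] K] [IsFractionRing k[X] K]
variable {c : Fin 2 → k} {g : k[X]} {P : Fin 2 → k[X]} {r : ℕ} {T : Fin r → k[X]}

theorem rep_rt (H : Dtb 2 c g P T (fun _ => 1)) {i j : Fin 3} (h : i ≠ j) :
    IsRep 2 (Sum.elim T P) (rt K c g T i - rt K c g T j) (cs 2 g c i j)
      (Sum.elim (fun _ => 1) (fun s => mu 2 (fun _ => 0) Fin.succ i j s)) := by
  have h1 := H.rep_diff K h
  have h2 := H.rep_twist K (r := 1) one_ne_zero
  have h3 := h1.mul H.S h2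
  have e : (algebraMap k[X] K (br g c i) - algebraMap k[X] K (br g c j)) *
      algebraMap k[X] K (C 1 * ∏ x, T x ^ 1) = rt K c g T i - rt K c g T j := by
    unfold rt
    simp only [pow_one, C_1, one_mul, map_mul]
    ring
  rw [e] at h3
  refine h3.congr ?_ ?_
  · rw [ch_one H.S, add_zero]
  · rintro (x | s)
    · simp
    · simp

theorem rt_ne (H : Dtb 2 c g P T (fun _ => 1)) {i j : Fin 3} (h : i ≠ j) :
    rt K c g T i - rt K c g T j ≠ 0 := (rep_rt H h).ne H.fam

/-- the constants of the torsion classes -/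
noncomputable def tc (g : k[X]) (c : Fin 2 → k) (i j : Fin 3) : ZMod 2 :=
  if j = i then ∑ l ∈ univ.erase i, cs 2 g c i l else cs 2 g c i j

theorem rep_tors (H : Dtb 2 c g P T (fun _ => 1)) (i j : Fin 3) :
    IsRep 2 (Sum.elim T P) (tors K c g T i j) (tc g c i j)
      (Sum.elim (fun _ => tx i j) (tp i j)) := by
  unfold tors tc tx
  by_cases h : j = i
  · simp only [if_pos h]
    have h1 := IsRep.prod H.S (univ.erase i) (f := fun l => rt K c g T i - rt K c g T l)
      (fun l hl => rep_rt H (ne_of_mem_erase hl).symm)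
    refine h1.congr rfl ?_
    rintro (x | s)
    · simp only [Sum.elim_inl, sum_const]
      have : (univ.erase i).card = 2 := by
        rw [card_erase_of_mem (mem_univ _), card_univ, Fintype.card_fin]
      rw [this]
      decide
    · simp only [Sum.elim_inr]
      unfold tp
      rw [if_pos h]
  · simp only [if_neg h]
    refine (rep_rt H (Ne.symm h)).congr rfl ?_
    rintro (x | s)
    · rfl
    · simp only [Sum.elim_inr]
      unfold tp
      rw [if_neg h]

theorem rep_tw (H : Dtb 2 c g P T (fun _ => 1)) (m : Fin 3 → ℕ) (j : Fin 3) :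
    IsRep 2 (Sum.elim T P) (∏ i, tors K c g T i j ^ m i) (∑ i, (m i : ZMod 2) * tc g c i j)
      (Sum.elim (fun _ => ∑ i, (m i : ZMod 2) * tx i j)
        (fun s => ∑ i, (m i : ZMod 2) * tp i j s)) := by
  have h1 := IsRep.prod H.S univ (f := fun i => tors K c g T i j ^ m i)
    (fun i _ => (rep_tors H i j).pow H.S (m i))
  refine h1.congr rfl ?_
  rintro (x | s)
  · rfl
  · rfl

theorem two0 : (2 : ZMod 2) = 0 := rfl

theorem third_zero {H : Dtb 2 c g P T (fun _ => 1)} {D : Fin 3 → K} (h : Sel H D)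
    {cc : Fin 3 → ZMod 2} {U : Fin 3 → (Fin r ⊕ Fin 2) → ZMod 2}
    (h1 : ∀ i, IsRep 2 (Sum.elim T P) (D i) (cc i) (U i)) (s : Fin 2) :
    U (th s) (Sum.inr s) = 0 ∧
    ∑ y, (U (th s) y + U 0 (Sum.inr s) * (Sum.elim (fun _ => 1)
      (fun s' => mu 2 (fun _ => 0) Fin.succ 0 (th s) s') : (Fin r ⊕ Fin 2) → ZMod 2) y) *
        L 2 (Sum.elim T P y) (P s) +
      ((P s).natDegree : ZMod 2) * (cc (th s) + U 0 (Sum.inr s) * cs 2 g c 0 (th s)) = 0 := by
  obtain ⟨rA, rB, rC, rD⟩ :=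
    Pool.Agent.Y547.SZ.Rep.t 2 k K (Fin r ⊕ Fin 2) (Sum.elim T P) H.fam H.S
  replace rB := locB (K := K) H.S H.fam
  obtain ⟨ρ, h2, h3⟩ := h.node s
  have hPs : IsRep 2 (Sum.elim T P) (algebraMap k[X] K (P s)) 0 (Pi.single (Sum.inr s) 1) := by
    have h4 := isRep_el (ℓ := 2) (K := K) (R := Sum.elim T P) (r := 1) one_ne_zero
      (Pi.single (Sum.inr s) 1)
    have e : el (Sum.elim T P) 1 (Pi.single (Sum.inr s) 1) = P s := by
      rw [el, C_1, one_mul, prod_eq_single (Sum.inr s)]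
      · rw [Pi.single_eq_same, pow_one]
        rfl
      · intro y _ hy
        rw [Pi.single_eq_of_ne hy, pow_zero]
      · intro h
        exact absurd (mem_univ _) h
    rw [e] at h4
    refine h4.congr (ch_one H.S) (fun y => ?_)
    by_cases hy : y = Sum.inr s
    · rw [hy, Pi.single_eq_same, Pi.single_eq_same, Nat.cast_one]
    · rw [Pi.single_eq_of_ne hy, Pi.single_eq_of_ne hy, Nat.cast_zero]
  have h5 := rA _ _ _ ((h1 0).mul H.S (hPs.pow H.S ρ)) (Sum.inr s) h3
  rw [Pi.single_eq_same, mul_one] at h5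
  have hρ : (ρ : ZMod 2) = U 0 (Sum.inr s) := by
    linear_combination h5 - (U 0 (Sum.inr s)) * two0
  obtain ⟨h6, h7⟩ := rB _ _ _ ((h1 (th s)).mul H.S ((rep_rt H (th_ne s).1.symm).pow H.S ρ))
    (Sum.inr s) h2
  simp only [Sum.elim_inr] at h6 h7
  rw [th_mu, mul_zero, add_zero] at h6
  rw [hρ] at h7
  exact ⟨h6, h7⟩

theorem node_succ {H : Dtb 2 c g P T (fun _ => 1)} {D : Fin 3 → K} (h : Sel H D)
    {cc : Fin 3 → ZMod 2} {U : Fin 3 → (Fin r ⊕ Fin 2) → ZMod 2}
    (h1 : ∀ i, IsRep 2 (Sum.elim T P) (D i) (cc i) (U i)) (h3 : ∀ y, U 0 y = U 1 y + U 2 y)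
    (b s : Fin 2) : U b.succ (Sum.inr s) = if s = b then U 0 (Sum.inr s) else 0 := by
  have h2 := (third_zero h h1 s).1
  by_cases hs : s = b
  · rw [if_pos hs, h3, ← hs]
    fin_cases s
    · have e : U 2 (Sum.inr 0) = 0 := h2
      change U 1 (Sum.inr 0) = U 1 (Sum.inr 0) + U 2 (Sum.inr 0)
      rw [e, add_zero]
    · have e : U 1 (Sum.inr 1) = 0 := h2
      change U 2 (Sum.inr 1) = U 1 (Sum.inr 1) + U 2 (Sum.inr 1)
      rw [e, zero_add]
  · rw [if_neg hs, succ_cases b s hs]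
    exact h2

theorem sol_of {H : Dtb 2 c g P T (fun _ => 1)} {D : Fin 3 → K} (h : Sel H D)
    {a : Fin r → V 2 2} (hv : Vec T P D a) :
    Sol (fun _ => 1) (fun x y => L 2 (T y) (T x)) (fun x s => L 2 (P s) (T x)) a := by
  obtain ⟨rA, rB, rC, rD⟩ :=
    Pool.Agent.Y547.SZ.Rep.t 2 k K (Fin r ⊕ Fin 2) (Sum.elim T P) H.fam H.S
  replace rB := locB (K := K) H.S H.fam
  obtain ⟨cc, U, h1, h2, h3, h4⟩ := hv
  intro x b
  obtain ⟨m, hm⟩ := h.twist x
  obtain ⟨w, hw⟩ : ∃ w : Fin 3 → ZMod 2, w = fun j => ∑ i, (m i : ZMod 2) * tx i j := ⟨_, rfl⟩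
  have hd : ((T x).natDegree : ZMod 2) = 0 := H.hTd x
  have key : ∀ j : Fin 3, U j (Sum.inl x) = w j ∧
      ∑ y, (U j (Sum.inl y) + w j) * L 2 (T y) (T x) +
        ∑ s, (U j (Sum.inr s) + ∑ i, (m i : ZMod 2) * tp i j s) * L 2 (P s) (T x) = 0 := by
    intro j
    obtain ⟨h5, h6⟩ := rB _ _ _ ((h1 j).mul H.S (rep_tw H m j)) (Sum.inl x) (hm j)
    rw [Fintype.sum_sum_type] at h6
    simp only [Sum.elim_inl, Sum.elim_inr] at h5 h6
    rw [hd, zero_mul, add_zero] at h6
    constructor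
    · rw [hw]
      linear_combination h5 - (∑ i, (m i : ZMod 2) * tx i j) * two0
    · rw [hw]
      exact h6
  have e0 := (key 0).2
  have e1 := (key b.succ).2
  have hU : ∀ s, U b.succ (Sum.inr s) = if s = b then U 0 (Sum.inr s) else 0 :=
    fun s => node_succ h h1 h3 b s
  have hw0 : ∀ s : Fin 2, ∑ i, (m i : ZMod 2) * tp i 0 s = w 0 + w s.succ := by
    intro s
    rw [hw]
    simp only [t1, mul_add, sum_add_distrib]
  have hwb : ∀ s : Fin 2, ∑ i, (m i : ZMod 2) * tp i b.succ s =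
      if s = b then w 0 + w b.succ else 0 := by
    intro s
    rw [hw]
    simp only [t2]
    by_cases hs : s = b
    · simp only [if_pos hs, mul_add, sum_add_distrib]
    · simp only [if_neg hs, mul_zero, sum_const_zero]
  have ea : ∀ s, a x s = w s.succ + w 0 + U 0 (Sum.inr s) := by
    intro s
    rw [h4, (key s.succ).1, (key 0).1]
  have y1 : ∀ y : Fin r, (1 : ZMod 2) * L 2 (T y) (T x) * (a x b - a y b) =
      (U 0 (Sum.inl y) + w 0) * L 2 (T y) (T x) +
        (U b.succ (Sum.inl y) + w b.succ) * L 2 (T y) (T x) := by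
    intro y
    rw [ea, h4]
    linear_combination (-(U 0 (Sum.inl y) + U b.succ (Sum.inl y)) * L 2 (T y) (T x)) * two0
  have y2 : ∀ s : Fin 2, a x s * L 2 (P s) (T x) + (if s = b then a x s * L 2 (P s) (T x) else 0) =
      (U 0 (Sum.inr s) + ∑ i, (m i : ZMod 2) * tp i 0 s) * L 2 (P s) (T x) +
        (U b.succ (Sum.inr s) + ∑ i, (m i : ZMod 2) * tp i b.succ s) * L 2 (P s) (T x) := by
    intro s
    rw [hw0, hwb, hU, ea]
    by_cases hs : s = b
    · simp only [if_pos hs]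
      rw [hs]
      ring
    · simp only [if_neg hs]
      ring
  have hsum : ∑ s, (a x s * L 2 (P s) (T x) + (if s = b then a x s * L 2 (P s) (T x) else 0)) =
      ∑ s, a x s * L 2 (P s) (T x) + a x b * L 2 (P b) (T x) := by
    rw [sum_add_distrib, sum_ite_eq' univ b, if_pos (mem_univ b)]
  rw [add_assoc, ← hsum, sum_congr rfl fun y _ => y1 y, sum_congr rfl fun s _ => y2 s,
    sum_add_distrib, sum_add_distrib]
  linear_combination e0 + e1

end

end Pool.Agent.D0H99.DE
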