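import Pool.Agent.D0H99.DE.Sol

/-!
Explicit 2-descent: the classes with zero vector are the classes of torsion points.
-/

set_option autoImplicit false
set_option linter.all false

open Polynomial IsDedekindDomain

namespace Pool.Agent.D0H99.DE

open Finset
open Pool.Agent.Y164.SZ
open Pool.Agent.Y713.SE (hp Pw)
open Pool.Agent.Y164.PS (Fam el)
open Pool.Agent.D0H99.FT (br nu cs)
open Pool.Agent.D0H99.RM (Dtb V Sol)

section
variable {k : Type} [Field k] [Fintype k] [DecidableEq k]
variable {K : Type} [Field K] [Algebra k[X] K] [IsFractionRing k[X] K]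
variable {c : Fin 2 → k} {g : k[X]} {P : Fin 2 → k[X]} {r : ℕ} {T : Fin r → k[X]}

theorem z_add_self (a : ZMod 2) : a + a = 0 := by
  linear_combination a * two0

theorem eq_of_add {a b : ZMod 2} (h : a + b = 0) : a = b := by
  linear_combination h - b * two0

theorem cases_fin3 {p : Fin 3 → Prop} (h0 : p 0) (h1 : p 1) (h2 : p 2) : ∀ j, p j := by
  intro j
  fin_cases j
  · exact h0
  · exact h1
  · exact h2

theorem tc_sum (H : Dtb 2 c g P T (fun _ => 1)) (i : Fin 3) :
    tc g c i 0 = tc g c i 1 + tc g c i 2 := by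
  have s01 := H.cs_symm 0 1
  have s02 := H.cs_symm 0 2
  have s12 := H.cs_symm 1 2
  have e0 : univ.erase (0 : Fin 3) = {1, 2} := by decide
  have e1 : univ.erase (1 : Fin 3) = {0, 2} := by decide
  have e2 : univ.erase (2 : Fin 3) = {0, 1} := by decide
  have n12 : (1 : Fin 3) ≠ 2 := by decide
  have n02 : (0 : Fin 3) ≠ 2 := by decide
  have n01 : (0 : Fin 3) ≠ 1 := by decide
  revert i
  apply cases_fin3
  · unfold tc
    rw [if_pos rfl, if_neg (by decide), if_neg (by decide), e0, sum_pair n12]
  · unfold tc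
    rw [if_neg (by decide), if_pos rfl, if_neg (by decide), e1, sum_pair n02]
    linear_combination (-(cs 2 g c 1 2)) * two0
  · unfold tc
    rw [if_neg (by decide), if_neg (by decide), if_pos rfl, e2, sum_pair n01]
    linear_combination (-(cs 2 g c 2 1)) * two0

/-- all exponents and constants are zero -/
theorem sq_all (H : Dtb 2 c g P T (fun _ => 1)) {D : Fin 3 → K} {cc : Fin 3 → ZMod 2}
    {U : Fin 3 → (Fin r ⊕ Fin 2) → ZMod 2} (h1 : ∀ i, IsRep 2 (Sum.elim T P) (D i) (cc i) (U i))
    (hU : ∀ i y, U i y = 0) (hc : ∀ i, cc i = 0) (j : Fin 3) : ∃ z : K, D j = z ^ 2 := by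
  obtain ⟨rA, rB, rC, rD⟩ :=
    Pool.Agent.Y547.SZ.Rep.t 2 k K (Fin r ⊕ Fin 2) (Sum.elim T P) H.fam H.S
  exact rC _ ((h1 j).congr (hc j) (fun y => (hU j y).trans rfl))

theorem triv_of {H : Dtb 2 c g P T (fun _ => 1)} (ht : ∀ i, Sel (K := K) H (tors K c g T i))
    {D : Fin 3 → K} (h : Sel H D) (hv : Vec T P D 0) :
    (∀ j, ∃ z : K, D j = z ^ 2) ∨ ∃ i, ∀ j, ∃ z : K, D j * tors K c g T i j = z ^ 2 := by
  obtain ⟨cc, U, h1, h2, h3, h4⟩ := hv
  have hnode : ∀ b s, U b.succ (Sum.inr s) = if s = b then U 0 (Sum.inr s) else 0 :=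
    fun b s => node_succ h h1 h3 b s
  have h4' : ∀ x (s : Fin 2), U s.succ (Sum.inl x) + U 0 (Sum.inl x) + U 0 (Sum.inr s) = 0 :=
    fun x s => (h4 x s).symm
  rcases t4 (fun s => U 0 (Sum.inr s)) with hf | ⟨i, hf⟩
  · left
    have hf' : ∀ s, U 0 (Sum.inr s) = 0 := fun s => congrFun hf s
    have hT : ∀ j x, U j (Sum.inl x) = 0 := by
      intro j x
      have e1 : U 1 (Sum.inl x) = U 0 (Sum.inl x) := by
        have := h4' x 0
        rw [hf', add_zero] at this
        exact eq_of_add this
      have e2 : U 2 (Sum.inl x) = U 0 (Sum.inl x) := by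
        have := h4' x 1
        rw [hf', add_zero] at this
        exact eq_of_add this
      have e0 : U 0 (Sum.inl x) = 0 := by
        have := h3 (Sum.inl x)
        rw [e1, e2, z_add_self] at this
        exact this
      revert j
      apply cases_fin3
      · exact e0
      · rw [e1, e0]
      · rw [e2, e0]
    have hU : ∀ j y, U j y = 0 := by
      intro j y
      rcases y with x | s
      · exact hT j x
      · rcases Fin.eq_zero_or_eq_succ j with rfl | ⟨b, rfl⟩
        · exact hf' s
        · rw [hnode, hf']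
          split_ifs <;> rfl
    have hth : ∀ s, cc (th s) = 0 := by
      intro s
      have h5 := (third_zero h h1 s).2
      rw [sum_eq_zero (fun y _ => by rw [hU, hU, zero_mul, add_zero, zero_mul]), zero_add, hU,
        zero_mul, add_zero] at h5
      exact (mul_eq_zero.1 h5).resolve_left (H.deg_P_ne s)
    have hc : ∀ i, cc i = 0 := by
      apply cases_fin3
      · rw [h2, show cc 1 = 0 from hth 1, show cc 2 = 0 from hth 0, add_zero]
      · exact hth 1
      · exact hth 0
    exact sq_all H h1 hU hc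
  · right
    refine ⟨i, ?_⟩
    have hf' : ∀ s, U 0 (Sum.inr s) = tx i 0 + tx i s.succ := fun s => congrFun hf s
    have hW : ∀ j x, U j (Sum.inl x) + tx i j = 0 := by
      intro j x
      have e1 : U 1 (Sum.inl x) + tx i 1 = U 0 (Sum.inl x) + tx i 0 := by
        have := h4' x 0
        rw [hf'] at this
        have h6 : (U 1 (Sum.inl x) + tx i 1) + (U 0 (Sum.inl x) + tx i 0) = 0 := by
          rw [← this]
          change _ = U 1 (Sum.inl x) + U 0 (Sum.inl x) + (tx i 0 + tx i 1)
          ring
        exact eq_of_add h6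
      have e2 : U 2 (Sum.inl x) + tx i 2 = U 0 (Sum.inl x) + tx i 0 := by
        have := h4' x 1
        rw [hf'] at this
        have h6 : (U 2 (Sum.inl x) + tx i 2) + (U 0 (Sum.inl x) + tx i 0) = 0 := by
          rw [← this]
          change _ = U 2 (Sum.inl x) + U 0 (Sum.inl x) + (tx i 0 + tx i 2)
          ring
        exact eq_of_add h6
      have e0 : U 0 (Sum.inl x) + tx i 0 = 0 := by
        have h6 : U 0 (Sum.inl x) + tx i 0 = (U 1 (Sum.inl x) + tx i 1) +
            (U 2 (Sum.inl x) + tx i 2) := by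
          rw [h3, t5]
          ring
        rw [e1, e2, z_add_self] at h6
        exact h6
      revert j
      apply cases_fin3
      · exact e0
      · rw [e1, e0]
      · rw [e2, e0]
    have hrep : ∀ j, IsRep 2 (Sum.elim T P) (D j * tors K c g T i j) (cc j + tc g c i j)
        (fun y => U j y + (Sum.elim (fun _ => tx i j) (tp i j) : (Fin r ⊕ Fin 2) → ZMod 2) y) :=
      fun j => (h1 j).mul H.S (rep_tors H i j)
    have hU : ∀ j y, U j y + (Sum.elim (fun _ => tx i j) (tp i j) : (Fin r ⊕ Fin 2) → ZMod 2) y =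
        0 := by
      intro j y
      rcases y with x | s
      · exact hW j x
      · simp only [Sum.elim_inr]
        rcases Fin.eq_zero_or_eq_succ j with rfl | ⟨b, rfl⟩
        · rw [hf', t1, z_add_self]
        · rw [hnode, t2, hf']
          by_cases hs : s = b
          · rw [if_pos hs, if_pos hs, hs, z_add_self]
          · rw [if_neg hs, if_neg hs, add_zero]
    have hth : ∀ s, cc (th s) + tc g c i (th s) = 0 := by
      intro s
      have h5 := (third_zero h h1 s).2
      have h6 := (third_zero (ht i) (fun j => rep_tors H i j) s).2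
      have h7 : (Sum.elim (fun _ => tx i 0) (tp i 0) : (Fin r ⊕ Fin 2) → ZMod 2) (Sum.inr s) =
          U 0 (Sum.inr s) := by
        rw [hf', Sum.elim_inr, t1]
      rw [h7] at h6
      have h8 := congrArg₂ (· + ·) h5 h6
      simp only [add_zero] at h8
      have h9 : ∑ y, (U (th s) y + U 0 (Sum.inr s) * (Sum.elim (fun _ => 1)
          (fun s' => mu 2 (fun _ => 0) Fin.succ 0 (th s) s') : (Fin r ⊕ Fin 2) → ZMod 2) y) *
            L 2 (Sum.elim T P y) (P s) +
          ∑ y, ((Sum.elim (fun _ => tx i (th s)) (tp i (th s)) : (Fin r ⊕ Fin 2) → ZMod 2) y +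
            U 0 (Sum.inr s) * (Sum.elim (fun _ => 1)
          (fun s' => mu 2 (fun _ => 0) Fin.succ 0 (th s) s') : (Fin r ⊕ Fin 2) → ZMod 2) y) *
            L 2 (Sum.elim T P y) (P s) = 0 := by
        rw [← sum_add_distrib]
        refine sum_eq_zero fun y _ => ?_
        have h10 := hU (th s) y
        linear_combination (L 2 (Sum.elim T P y) (P s)) * h10 +
          (U 0 (Sum.inr s) * (Sum.elim (fun _ => 1)
          (fun s' => mu 2 (fun _ => 0) Fin.succ 0 (th s) s') : (Fin r ⊕ Fin 2) → ZMod 2) y) *
            L 2 (Sum.elim T P y) (P s) * two0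
      have h11 : ((P s).natDegree : ZMod 2) * (cc (th s) + tc g c i (th s)) = 0 := by
        linear_combination h8 - h9 - ((P s).natDegree : ZMod 2) *
          (U 0 (Sum.inr s) * cs 2 g c 0 (th s)) * two0
      exact (mul_eq_zero.1 h11).resolve_left (H.deg_P_ne s)
    have hc : ∀ j, cc j + tc g c i j = 0 := by
      have c1 : cc 1 + tc g c i 1 = 0 := hth 1
      have c2 : cc 2 + tc g c i 2 = 0 := hth 0
      apply cases_fin3
      · rw [h2, tc_sum H]
        linear_combination c1 + c2
      · exact c1
      · exact c2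
    exact sq_all H hrep hU hc

end

end Pool.Agent.D0H99.DE
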